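import Mathlib

set_option autoImplicit false

namespace Pool.Agent.Lib.MP_43444d_nt

open Finset

/-- The additive character `t ↦ exp (2 π i t)`. -/
noncomputable def ec (t : ℝ) : ℂ := Complex.exp (Complex.I * ((2 * Real.pi * t : ℝ) : ℂ))

theorem ec_add (s t : ℝ) : ec (s + t) = ec s * ec t := by
  unfold ec
  rw [← Complex.exp_add]
  congr 1
  push_cast
  ring

theorem ec_zero : ec 0 = 1 := by simp [ec]

theorem norm_ec (t : ℝ) : ‖ec t‖ = 1 := by
  unfold ec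
  exact Complex.norm_exp_I_mul_ofReal _

theorem ec_int (n : ℤ) : ec n = 1 := by
  unfold ec
  rw [← Complex.exp_int_mul_two_pi_mul_I n]
  congr 1
  push_cast
  ring

theorem norm_ec_sub_one_le (t : ℝ) : ‖ec t - 1‖ ≤ 2 * Real.pi * |t| := by
  unfold ec
  refine Real.norm_exp_I_mul_ofReal_sub_one_le.trans (le_of_eq ?_)
  rw [Real.norm_eq_abs, abs_mul, abs_of_pos Real.two_pi_pos]

theorem conj_ec (t : ℝ) : (starRingEnd ℂ) (ec t) = ec (-t) := by
  unfold ec
  rw [← Complex.exp_conj]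
  congr 1
  simp only [map_mul, Complex.conj_I, Complex.conj_ofReal]
  push_cast
  ring

theorem ec_nat_mul (n : ℕ) (t : ℝ) : ec (n * t) = ec t ^ n := by
  induction n with
  | zero => simp [ec_zero]
  | succ n ih => rw [Nat.cast_succ, add_mul, one_mul, ec_add, ih, pow_succ]

theorem ec_ne_one {P : ℕ} {m : ℤ} (hm : m ≠ 0) (hmP : |m| < P) : ec (m / P) ≠ 1 := by
  intro h
  unfold ec at h
  obtain ⟨n, hn⟩ := Complex.exp_eq_one_iff.1 h
  have hP : (0 : ℝ) < P := by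
    have : (0 : ℤ) < P := (abs_nonneg m).trans_lt hmP
    exact_mod_cast this
  have h2 : (2 * Real.pi * (m / P) : ℝ) = n * (2 * Real.pi) := by
    have := congrArg Complex.im hn
    simpa using this
  have h3 : (m : ℝ) = n * P := by
    have h4 : (m / P : ℝ) = n := by
      have hpi := Real.two_pi_pos
      nlinarith
    rw [← h4]; field_simp
  have h5 : m = n * P := by exact_mod_cast h3
  have hn0 : n ≠ 0 := by rintro rfl; simp at h5; exact hm h5
  have : (P : ℤ) ≤ |m| := by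
    rw [h5, abs_mul, Nat.abs_cast]
    have : 1 ≤ |n| := Int.one_le_abs hn0
    nlinarith [Nat.cast_nonneg (α := ℤ) P]
  omega

theorem sum_ec_orth {P : ℕ} {m : ℤ} (hmP : |m| < P) :
    ∑ ξ ∈ range P, ec (ξ * (m / P)) = if m = 0 then (P : ℂ) else 0 := by
  split_ifs with hm
  · subst hm; simp [ec_zero]
  · have hP : (P : ℝ) ≠ 0 := by
      have : (0 : ℤ) < P := (abs_nonneg m).trans_lt hmP
      have : (0 : ℝ) < P := by exact_mod_cast this
      exact this.ne'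
    simp only [ec_nat_mul]
    rw [geom_sum_eq (ec_ne_one hm hmP), ← ec_nat_mul]
    have : (P : ℝ) * (m / P) = (m : ℝ) := by field_simp
    rw [this, ec_int]; simp

theorem parseval {P : ℕ} (U : Finset ℤ) (hU : ∀ u ∈ U, ∀ u' ∈ U, |u - u'| < P) :
    ∑ ξ ∈ range P, ‖∑ u ∈ U, ec (ξ * (u / P))‖ ^ 2 = P * U.card := by
  have h1 : ∀ ξ : ℕ, ((‖∑ u ∈ U, ec (ξ * (u / P))‖ ^ 2 : ℝ) : ℂ) =
      ∑ u ∈ U, ∑ u' ∈ U, ec (ξ * (((u - u' : ℤ) : ℝ) / P)) := by
    intro ξ
    rw [← Complex.normSq_eq_norm_sq, ← Complex.mul_conj, map_sum, sum_mul_sum]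
    refine sum_congr rfl fun u _ => sum_congr rfl fun u' _ => ?_
    rw [conj_ec, ← ec_add]
    congr 1
    push_cast
    ring
  have h2 : ((∑ ξ ∈ range P, ‖∑ u ∈ U, ec (ξ * (u / P))‖ ^ 2 : ℝ) : ℂ) = (P * U.card : ℝ) := by
    rw [Complex.ofReal_sum]
    simp only [h1]
    rw [sum_comm]
    have : ∀ u ∈ U, ∑ ξ ∈ range P, ∑ u' ∈ U, ec (ξ * (((u - u' : ℤ) : ℝ) / P)) = P := by
      intro u hu
      rw [sum_comm, sum_congr rfl (fun u' hu' => sum_ec_orth (hU u hu u' hu'))]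
      simp only [sub_eq_zero]
      rw [sum_ite_eq]
      simp [hu]
    rw [sum_congr rfl this]
    simp [mul_comm]
  exact_mod_cast h2

/-- A bilinear sum is controlled by the largest Fourier coefficient. -/
theorem bilinear_le {P : ℕ} (f : ℤ → ℝ) {Λ : ℝ}
    (hΛ : ∀ θ : ℝ, ‖∑ y ∈ range P, (f y : ℂ) * ec (θ * y)‖ ≤ Λ) (hP : 0 < P)
    (U V : Finset ℤ) (hU : ∀ u ∈ U, ∀ u' ∈ U, |u - u'| < P)
    (hV : ∀ u ∈ V, ∀ u' ∈ V, |u - u'| < P)
    (hUV : ∀ u ∈ U, ∀ v ∈ V, 0 ≤ u - v ∧ u - v < P) {c : ℝ} (hc : 0 < c) :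
    |∑ u ∈ U, ∑ v ∈ V, f (u - v)| ≤ Λ * (c * U.card + V.card / c) / 2 := by
  have hPr : (0 : ℝ) < P := by exact_mod_cast hP
  have hΛ0 : 0 ≤ Λ := (norm_nonneg _).trans (hΛ 0)
  have key : ∀ z : ℤ, 0 ≤ z → z < P → (P : ℂ) * f z =
      ∑ ξ ∈ range P, (∑ y ∈ range P, (f y : ℂ) * ec ((ξ / P) * y)) * ec (-(ξ * (z / P))) := by
    intro z hz0 hzP
    simp only [sum_mul]
    rw [sum_comm]
    have : ∀ y ∈ range P, ∑ ξ ∈ range P, (f y : ℂ) * ec ((ξ / P) * y) * ec (-(ξ * (z / P))) =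
        if (y : ℤ) - z = 0 then (f y : ℂ) * P else 0 := by
      intro y hy
      have hy' : (y : ℤ) < P := by exact_mod_cast mem_range.1 hy
      have hh : |(y : ℤ) - z| < P := by rw [abs_lt]; constructor <;> omega
      have h3 := sum_ec_orth hh
      have h4 : ∀ ξ : ℕ, (f y : ℂ) * ec ((ξ / P) * y) * ec (-(ξ * (z / P))) =
          (f y : ℂ) * ec (ξ * ((((y : ℤ) - z : ℤ) : ℝ) / P)) := by
        intro ξ
        rw [mul_assoc, ← ec_add]
        congr 2
        push_cast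
        ring
      simp only [h4]
      rw [← mul_sum, h3]
      split_ifs <;> simp
    rw [sum_congr rfl this, sum_eq_single z.toNat]
    · have : ((z.toNat : ℕ) : ℤ) = z := Int.toNat_of_nonneg hz0
      simp [this, mul_comm]
    · intro y _ hy
      rw [if_neg]
      omega
    · intro h
      exfalso
      apply h
      rw [mem_range]
      omega
  have main : (P : ℂ) * ((∑ u ∈ U, ∑ v ∈ V, f (u - v) : ℝ) : ℂ) =
      ∑ ξ ∈ range P, (∑ y ∈ range P, (f y : ℂ) * ec ((ξ / P) * y)) *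
        ((starRingEnd ℂ) (∑ u ∈ U, ec (ξ * (u / P))) * ∑ v ∈ V, ec (ξ * (v / P))) := by
    push_cast
    rw [mul_sum]
    simp only [mul_sum (s := V)]
    rw [sum_congr rfl (fun u hu => sum_congr rfl
      (fun v hv => key (u - v) (hUV u hu v hv).1 (hUV u hu v hv).2))]
    rw [sum_congr rfl (fun u _ => sum_comm), sum_comm]
    refine sum_congr rfl fun ξ _ => ?_
    rw [map_sum, sum_comm]
    refine sum_congr rfl fun v _ => ?_
    rw [sum_mul (s := U), mul_sum]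
    refine sum_congr rfl fun u _ => ?_
    rw [conj_ec, ← ec_add]
    congr 2
    push_cast
    ring
  have hn : (P : ℝ) * |∑ u ∈ U, ∑ v ∈ V, f (u - v)| ≤
      ∑ ξ ∈ range P, Λ * (c * ‖∑ u ∈ U, ec (ξ * (u / P))‖ ^ 2 +
        ‖∑ v ∈ V, ec (ξ * (v / P))‖ ^ 2 / c) / 2 := by
    have := congrArg norm main
    rw [norm_mul, Complex.norm_natCast, Complex.norm_real, Real.norm_eq_abs] at this
    rw [this]
    refine (norm_sum_le _ _).trans (sum_le_sum fun ξ _ => ?_)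
    rw [norm_mul, norm_mul, Complex.norm_conj]
    set a := ‖∑ u ∈ U, ec (ξ * (u / P))‖
    set b := ‖∑ v ∈ V, ec (ξ * (v / P))‖
    have hab : a * b ≤ (c * a ^ 2 + b ^ 2 / c) / 2 := by
      have : (c * a ^ 2 + b ^ 2 / c) / 2 - a * b = (c * a - b) ^ 2 / (2 * c) := by
        field_simp; ring
      have h2 : 0 ≤ (c * a - b) ^ 2 / (2 * c) := by positivity
      linarith
    calc _ ≤ Λ * (a * b) :=
          mul_le_mul_of_nonneg_right (hΛ _) (mul_nonneg (norm_nonneg _) (norm_nonneg _))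
      _ ≤ Λ * ((c * a ^ 2 + b ^ 2 / c) / 2) := mul_le_mul_of_nonneg_left hab hΛ0
      _ = _ := by ring
  have hs : ∑ ξ ∈ range P, Λ * (c * ‖∑ u ∈ U, ec (ξ * (u / P))‖ ^ 2 +
        ‖∑ v ∈ V, ec (ξ * (v / P))‖ ^ 2 / c) / 2 =
      P * (Λ * (c * U.card + V.card / c) / 2) := by
    rw [← sum_div, ← mul_sum, sum_add_distrib, ← mul_sum, ← sum_div, parseval U hU,
      parseval V hV]
    ring
  rw [hs] at hn
  exact le_of_mul_le_mul_left hn hPr

/-- If all progressions of length `ℓ` carry nonpositive sums, all Fourier coefficients are small. -/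
theorem fourier_le {P ℓ Q : ℕ} (hℓ : 0 < ℓ) (hQ : 0 < Q) (f : ℤ → ℝ) {Γ : ℝ}
    (hf1 : ∀ y, |f y| ≤ 1) (hf0 : ∀ y : ℤ, ¬ (0 ≤ y ∧ y < P) → f y = 0)
    (hAP : ∀ a d : ℤ, 0 ≤ a → 0 < d → d ≤ Q → a + d * ℓ ≤ P →
      ∑ t ∈ range ℓ, f (a + d * t) ≤ 0)
    (hΓ : -Γ ≤ ∑ y ∈ range P, f y) (θ : ℝ) :
    ‖∑ y ∈ range P, (f y : ℂ) * ec (θ * y)‖ ≤ Γ + 4 * ℓ * Q + 2 * Real.pi * (ℓ / Q) * P := by
  obtain ⟨j, d, hd0, hdQ, hj⟩ := Real.exists_int_int_abs_mul_sub_le θ hQ
  have hℓr : (0 : ℝ) < ℓ := by exact_mod_cast hℓ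
  have hQr : (0 : ℝ) < Q := by exact_mod_cast hQ
  set Y : Finset ℤ := Ico (-(ℓ * Q : ℤ)) P with hY
  -- shifting identity
  have shift : ∀ {E : Type} [AddCommMonoid E] (g : ℤ → E), (∀ y : ℤ, ¬ (0 ≤ y ∧ y < P) → g y = 0) →
      ∀ t ∈ range ℓ, ∑ y ∈ Y, g (y + d * t) = ∑ y ∈ range P, g y := by
    intro E _ g hg t ht
    have ht' : (t : ℤ) < ℓ := by exact_mod_cast mem_range.1 ht
    have hdt : d * t ≤ ℓ * Q := by nlinarith [Int.natCast_nonneg t]
    have hdt0 : 0 ≤ d * t := mul_nonneg hd0.le (Int.natCast_nonneg t)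
    have h1 : ∑ y ∈ range P, g y = ∑ y ∈ (range P).image (fun y : ℕ => (y : ℤ) - d * t),
        g (y + d * t) := by
      rw [sum_image (fun a _ b _ h => by simpa using h)]
      simp
    rw [h1]
    symm
    apply sum_subset
    · intro y hy
      obtain ⟨z, hz, rfl⟩ := mem_image.1 hy
      have : (z : ℤ) < P := by exact_mod_cast mem_range.1 hz
      rw [hY, mem_Ico]
      constructor <;> omega
    · intro y _ hy
      apply hg
      rintro ⟨h1, h2⟩
      apply hy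
      refine mem_image.2 ⟨(y + d * t).toNat, mem_range.2 (by omega), ?_⟩
      rw [Int.toNat_of_nonneg h1]; ring
  set g : ℤ → ℝ := fun y => ∑ t ∈ range ℓ, f (y + d * t) with hg
  have e1 : (ℓ : ℂ) * ∑ y ∈ range P, (f y : ℂ) * ec (θ * y) =
      ∑ y ∈ Y, (g y : ℂ) * ec (θ * y) +
        ∑ y ∈ Y, ∑ t ∈ range ℓ, (f (y + d * t) : ℂ) * ec (θ * y) * (ec ((d * θ - j) * t) - 1) := by
    have h1 := shift (fun y => (f y : ℂ) * ec (θ * y)) (fun y hy => by simp [hf0 y hy])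
    have h2 : (ℓ : ℂ) * ∑ y ∈ range P, (f y : ℂ) * ec (θ * y) =
        ∑ t ∈ range ℓ, ∑ y ∈ Y, (f (y + d * t) : ℂ) * ec (θ * ((y + d * t : ℤ) : ℝ)) := by
      rw [sum_congr rfl h1]
      simp
    rw [h2, sum_comm, ← sum_add_distrib]
    refine sum_congr rfl fun y _ => ?_
    simp only [hg]
    push_cast
    rw [sum_mul, ← sum_add_distrib]
    refine sum_congr rfl fun t _ => ?_
    have h3 : ec (θ * (y + d * t)) = ec (θ * y) * ec ((d * θ - j) * t) := by
      have : θ * (y + d * t) = θ * y + (d * θ - j) * t + ((j * t : ℤ) : ℝ) := by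
        push_cast; ring
      rw [this, ec_add, ec_add, ec_int, mul_one]
    rw [h3]; ring
  have e2 : ‖∑ y ∈ Y, ∑ t ∈ range ℓ, (f (y + d * t) : ℂ) * ec (θ * y) *
      (ec ((d * θ - j) * t) - 1)‖ ≤ ℓ * (2 * Real.pi * (ℓ / Q) * P) := by
    rw [sum_comm]
    refine (norm_sum_le _ _).trans ?_
    have : ∀ t ∈ range ℓ, ‖∑ y ∈ Y, (f (y + d * t) : ℂ) * ec (θ * y) *
        (ec ((d * θ - j) * t) - 1)‖ ≤ 2 * Real.pi * (ℓ / Q) * P := by
      intro t ht
      have ht' : (t : ℝ) ≤ ℓ := by exact_mod_cast (mem_range.1 ht).le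
      have hb : ‖ec ((d * θ - j) * t) - 1‖ ≤ 2 * Real.pi * (ℓ / Q) := by
        refine (norm_ec_sub_one_le _).trans (mul_le_mul_of_nonneg_left ?_ Real.two_pi_pos.le)
        rw [abs_mul, Nat.abs_cast]
        have h5 : (1 : ℝ) / (Q + 1) ≤ 1 / Q := by
          apply one_div_le_one_div_of_le hQr; linarith
        calc |d * θ - j| * t ≤ (1 / Q) * ℓ :=
              mul_le_mul (hj.trans h5) ht' (Nat.cast_nonneg _) (by positivity)
          _ = ℓ / Q := by ring
      refine (norm_sum_le _ _).trans ?_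
      have h6 : ∑ y ∈ Y, |f (y + d * t)| ≤ P := by
        rw [shift (fun y => |f y|) (fun y hy => by simp [hf0 y hy]) t ht]
        calc _ ≤ ∑ y ∈ range P, (1 : ℝ) := sum_le_sum fun y _ => hf1 y
          _ = P := by simp
      calc _ ≤ ∑ y ∈ Y, 2 * Real.pi * (ℓ / Q) * |f (y + d * t)| := by
            refine sum_le_sum fun y _ => ?_
            rw [norm_mul, norm_mul, norm_ec, mul_one, Complex.norm_real, Real.norm_eq_abs,
              mul_comm]
            exact mul_le_mul_of_nonneg_right hb (abs_nonneg _)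
        _ ≤ _ := by
            rw [← mul_sum]
            exact mul_le_mul_of_nonneg_left h6 (by positivity)
    refine (sum_le_sum this).trans (le_of_eq ?_)
    simp
  have e3 : ‖∑ y ∈ Y, (g y : ℂ) * ec (θ * y)‖ ≤ ℓ * (Γ + 4 * ℓ * Q) := by
    refine (norm_sum_le _ _).trans ?_
    simp only [norm_mul, norm_ec, mul_one, Complex.norm_real, Real.norm_eq_abs]
    have hgb : ∀ y, |g y| ≤ ℓ := by
      intro y
      refine (abs_sum_le_sum_abs _ _).trans ?_
      calc _ ≤ ∑ t ∈ range ℓ, (1 : ℝ) := sum_le_sum fun t _ => hf1 _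
        _ = ℓ := by simp
    set Z : Finset ℤ := Ico (-(ℓ * Q : ℤ)) 0 ∪ Ico (P - ℓ * Q : ℤ) P with hZ
    have hZc : (Z.card : ℝ) ≤ 2 * ℓ * Q := by
      have := card_union_le (Ico (-(ℓ * Q : ℤ)) 0) (Ico (P - ℓ * Q : ℤ) P)
      simp only [Int.card_Ico] at this
      have h7 : ((0 : ℤ) - -(ℓ * Q)).toNat = ℓ * Q := by
        rw [show (0 : ℤ) - -(ℓ * Q) = ((ℓ * Q : ℕ) : ℤ) by push_cast; ring, Int.toNat_natCast]
      have h8 : ((P : ℤ) - (P - ℓ * Q)).toNat = ℓ * Q := by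
        rw [show (P : ℤ) - (P - ℓ * Q) = ((ℓ * Q : ℕ) : ℤ) by push_cast; ring, Int.toNat_natCast]
      rw [h7, h8] at this
      have h9 : (Z.card : ℝ) ≤ ((ℓ * Q + ℓ * Q : ℕ) : ℝ) := Nat.cast_le.2 this
      push_cast at h9
      linarith
    have hpt : ∀ y ∈ Y, |g y| ≤ -g y + 2 * ℓ * (if y ∈ Z then 1 else 0) := by
      intro y hy
      split_ifs with hyZ
      · have := hgb y
        rw [abs_le] at this
        rw [abs_le]; constructor <;> linarith [this.1, this.2]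
      · rw [hY, mem_Ico] at hy
        rw [hZ, mem_union, mem_Ico, mem_Ico] at hyZ
        have h10 : d * ℓ ≤ ℓ * Q := by nlinarith [Int.natCast_nonneg ℓ]
        have : g y ≤ 0 := hAP y d (by omega) hd0 hdQ (by omega)
        rw [abs_of_nonpos this]; simp
    refine (sum_le_sum hpt).trans ?_
    rw [sum_add_distrib, sum_neg_distrib, ← mul_sum]
    have h11 : ∑ y ∈ Y, g y = ℓ * ∑ y ∈ range P, f y := by
      simp only [hg]
      rw [sum_comm, sum_congr rfl (shift f hf0)]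
      simp
    have h12 : ∑ y ∈ Y, (if y ∈ Z then (1 : ℝ) else 0) ≤ Z.card := by
      rw [sum_boole]
      exact_mod_cast card_le_card (fun y hy => (mem_filter.1 hy).2)
    rw [h11]
    have h13 := mul_le_mul_of_nonneg_left hΓ hℓr.le
    have h14 := mul_le_mul_of_nonneg_left (h12.trans hZc) (by positivity : (0 : ℝ) ≤ 2 * ℓ)
    nlinarith
  have e4 := congrArg norm e1
  rw [norm_mul, Complex.norm_natCast] at e4
  have e5 := (norm_add_le _ _).trans (add_le_add e3 e2)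
  rw [← e4, ← mul_add] at e5
  exact le_of_mul_le_mul_left e5 hℓr

end Pool.Agent.Lib.MP_43444d_nt
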