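import Mathlib
import Pool.Agent.Lib.MP_43444d_nt.Fourier

set_option autoImplicit false

namespace Pool.Agent.Lib.MP_43444d_nt

open Finset

open Classical in
/-- Indicator of a set of integers. -/
noncomputable def ind (S : ℤ → Prop) (y : ℤ) : ℝ := if S y then 1 else 0

/-- Number of elements of `S` on the progression `a, a + d, …, a + d (ℓ - 1)`. -/
noncomputable def apSum (S : ℤ → Prop) (a d : ℤ) (ℓ : ℕ) : ℝ := ∑ j ∈ range ℓ, ind S (a + d * j)

/-- Every point of `S` lies at least `1/2` below each symmetric average. -/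
def MidConv (S : ℤ → Prop) (F : ℤ → ℝ) : Prop :=
  ∀ n a b : ℤ, S n → 0 ≤ a → a < b → a + b = 2 * n → 2 * F n + 1 ≤ F a + F b

/-- Some point of `S` lies at least `T` below a chord between two points of `S` in `[0, M)`. -/
def Defect (S : ℤ → Prop) (F : ℤ → ℝ) (M : ℤ) (T : ℝ) : Prop :=
  ∃ a n b : ℤ, 0 ≤ a ∧ a < n ∧ n < b ∧ b < M ∧ S a ∧ S n ∧ S b ∧
    ((b : ℝ) - a) * (F n + T) ≤ ((b : ℝ) - n) * F a + ((n : ℝ) - a) * F b

theorem ind_nonneg (S : ℤ → Prop) (y : ℤ) : 0 ≤ ind S y := by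
  unfold ind; split_ifs <;> norm_num

theorem ind_le_one (S : ℤ → Prop) (y : ℤ) : ind S y ≤ 1 := by
  unfold ind; split_ifs <;> norm_num

theorem ind_of (S : ℤ → Prop) {y : ℤ} (h : S y) : ind S y = 1 := by
  unfold ind; rw [if_pos h]

theorem ind_of_not (S : ℤ → Prop) {y : ℤ} (h : ¬ S y) : ind S y = 0 := by
  unfold ind; rw [if_neg h]

theorem apSum_nonneg (S : ℤ → Prop) (a d : ℤ) (ℓ : ℕ) : 0 ≤ apSum S a d ℓ :=
  sum_nonneg fun _ _ => ind_nonneg _ _

theorem apSum_le (S : ℤ → Prop) (a d : ℤ) (ℓ : ℕ) : apSum S a d ℓ ≤ ℓ := by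
  calc apSum S a d ℓ ≤ ∑ j ∈ range ℓ, (1 : ℝ) := sum_le_sum fun _ _ => ind_le_one _ _
    _ = ℓ := by simp

theorem apSum_add (S : ℤ → Prop) (a : ℤ) (m n : ℕ) :
    apSum S a 1 (m + n) = apSum S a 1 m + apSum S (a + m) 1 n := by
  unfold apSum
  rw [sum_range_add]
  congr 1
  refine sum_congr rfl fun j _ => ?_
  congr 1
  push_cast
  ring

theorem apSum_blocks (S : ℤ → Prop) (a : ℤ) (m K : ℕ) :
    apSum S a 1 (m * K) = ∑ k ∈ range m, apSum S (a + k * K) 1 K := by
  induction m with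
  | zero => simp [apSum]
  | succ m ih =>
    rw [Nat.succ_mul, apSum_add, ih, sum_range_succ]
    push_cast
    rfl

theorem apSum_comp (S : ℤ → Prop) (a d : ℤ) (ℓ : ℕ) :
    apSum (fun j => S (a + d * j)) 0 1 ℓ = apSum S a d ℓ := by
  unfold apSum
  refine sum_congr rfl fun j _ => ?_
  change ind S (a + d * (0 + 1 * j)) = _
  rw [zero_add, one_mul]

theorem apSum_shift (S : ℤ → Prop) (c a d : ℤ) (ℓ : ℕ) :
    apSum (fun y => S (c + y)) a d ℓ = apSum S (c + a) d ℓ := by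
  unfold apSum
  refine sum_congr rfl fun j _ => ?_
  change ind S (c + (a + d * j)) = _
  rw [add_assoc]

open Classical in
theorem apSum_eq_card (S : ℤ → Prop) (a : ℤ) (K : ℕ) :
    apSum S a 1 K = (((Ico (0 : ℤ) K).filter (fun x => S (a + x))).card : ℝ) := by
  unfold apSum ind
  rw [sum_boole]
  congr 1
  apply card_bij (fun (j : ℕ) _ => (j : ℤ))
  · intro j hj
    rw [mem_filter, mem_range] at hj
    rw [mem_filter, mem_Ico]
    refine ⟨⟨by omega, by exact_mod_cast hj.1⟩, by simpa using hj.2⟩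
  · intro a _ b _ h
    exact_mod_cast h
  · intro x hx
    rw [mem_filter, mem_Ico] at hx
    refine ⟨x.toNat, ?_, Int.toNat_of_nonneg hx.1.1⟩
    rw [mem_filter, mem_range, Int.toNat_of_nonneg hx.1.1]
    exact ⟨by omega, by simpa using hx.2⟩

theorem MidConv.comp {S : ℤ → Prop} {F : ℤ → ℝ} (h : MidConv S F) {a d : ℤ} (ha : 0 ≤ a)
    (hd : 0 < d) : MidConv (fun j => S (a + d * j)) (fun j => F (a + d * j)) := by
  intro n x y hn hx hxy hsum
  apply h _ _ _ hn
  · have := mul_nonneg hd.le hx; omega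
  · have := mul_lt_mul_of_pos_left hxy hd; omega
  · have : d * x + d * y = d * (2 * n) := by rw [← mul_add, hsum]
    linarith

theorem Defect.of_comp {S : ℤ → Prop} {F : ℤ → ℝ} {a d : ℤ} {ℓ : ℕ} {M : ℤ} {T : ℝ}
    (ha : 0 ≤ a) (hd : 0 < d) (hM : a + d * ℓ ≤ M)
    (h : Defect (fun j => S (a + d * j)) (fun j => F (a + d * j)) ℓ T) : Defect S F M T := by
  obtain ⟨x, n, y, hx, hxn, hny, hy, sx, sn, sy, hh⟩ := h
  refine ⟨a + d * x, a + d * n, a + d * y, ?_, ?_, ?_, ?_, sx, sn, sy, ?_⟩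
  · have := mul_nonneg hd.le hx; omega
  · have := mul_lt_mul_of_pos_left hxn hd; omega
  · have := mul_lt_mul_of_pos_left hny hd; omega
  · have := mul_lt_mul_of_pos_left hy hd; omega
  · have hd' : (0 : ℝ) < d := by exact_mod_cast hd
    have := mul_le_mul_of_nonneg_left hh hd'.le
    push_cast
    nlinarith

/-- The counting lemma. -/
theorem counting {q r ℓ Q K : ℕ} (hq : 1 ≤ q) (hr : 1 ≤ r) (hℓ : 0 < ℓ) (hQ : 0 < Q)
    (hK : K = 16 * q ^ 2 * r) {β Γ : ℝ} (hβ0 : 1 / (q : ℝ) ≤ β) (hβ1 : β ≤ 1) (B : ℤ → Prop)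
    (hAP : ∀ a d : ℤ, 0 ≤ a → 0 < d → d ≤ Q → a + d * ℓ ≤ (3 * K : ℕ) → apSum B a d ℓ ≤ β * ℓ)
    (hΓ : β * (3 * K : ℕ) - Γ ≤ apSum B 0 1 (3 * K))
    (hΛ : 4 * q * (Γ + 4 * ℓ * Q + 2 * Real.pi * (ℓ / Q) * (3 * K : ℕ)) < 5 * r)
    (R A Bad : Finset ℤ) (hR : ∀ ρ ∈ R, 0 ≤ ρ ∧ ρ < K) (hRc : r ≤ R.card)
    (hA : ∀ x ∈ A, 0 ≤ x ∧ x < K) (hAc : (K : ℝ) / (2 * q) ≤ A.card)
    (hBad : Bad.card ≤ 3 * r) :
    ∃ ρ ∈ R, ∃ x ∈ A, B (2 * ρ - x + K) ∧ 2 * ρ - x + K ∉ Bad := by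
  classical
  by_contra hcon
  push Not at hcon
  have hqr : (1 : ℝ) ≤ q := by exact_mod_cast hq
  have hrr : (1 : ℝ) ≤ r := by exact_mod_cast hr
  have hβpos : 0 ≤ β := le_trans (by positivity) hβ0
  have hKpos : 0 < K := by rw [hK]; positivity
  have hKr : (K : ℝ) = 16 * q ^ 2 * r := by rw [hK]; push_cast; ring
  set P : ℕ := 3 * K with hP
  let f : ℤ → ℝ := fun y => if 0 ≤ y ∧ y < P then ind B y - β else 0
  have hf1 : ∀ y, |f y| ≤ 1 := by
    intro y
    simp only [f]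
    split_ifs
    · have := ind_nonneg B y
      have := ind_le_one B y
      rw [abs_le]; constructor <;> linarith
    · simp
  have hf0 : ∀ y : ℤ, ¬ (0 ≤ y ∧ y < P) → f y = 0 := fun y hy => if_neg hy
  have hfAP : ∀ a d : ℤ, 0 ≤ a → 0 < d → d ≤ Q → a + d * ℓ ≤ P →
      ∑ t ∈ range ℓ, f (a + d * t) ≤ 0 := by
    intro a d ha hd hdQ hle
    have h1 : ∀ t ∈ range ℓ, f (a + d * t) = ind B (a + d * t) - β := by
      intro t ht
      have ht' : (t : ℤ) < ℓ := by exact_mod_cast mem_range.1 ht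
      have h2 := mul_lt_mul_of_pos_left ht' hd
      have h3 := mul_nonneg hd.le (Int.natCast_nonneg t)
      exact if_pos ⟨by omega, by omega⟩
    rw [sum_congr rfl h1, sum_sub_distrib]
    have := hAP a d ha hd hdQ hle
    unfold apSum at this
    simp only [sum_const, card_range, nsmul_eq_mul]
    linarith
  have hfΓ : -Γ ≤ ∑ y ∈ range P, f y := by
    have h1 : ∀ t ∈ range P, f t = ind B (0 + 1 * t) - β := by
      intro t ht
      have ht' : (t : ℤ) < P := by exact_mod_cast mem_range.1 ht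
      simp only [zero_add, one_mul]
      exact if_pos ⟨by omega, ht'⟩
    rw [sum_congr rfl h1, sum_sub_distrib]
    unfold apSum at hΓ
    simp only [sum_const, card_range, nsmul_eq_mul]
    linarith
  have hF := fourier_le hℓ hQ f hf1 hf0 hfAP hfΓ
  set Λ := Γ + 4 * ℓ * Q + 2 * Real.pi * (ℓ / Q) * P with hΛdef
  have hΛ0 : 0 ≤ Λ := (norm_nonneg _).trans (hF 0)
  let U : Finset ℤ := R.image (fun ρ => 2 * ρ + K)
  have hinj : Set.InjOn (fun ρ : ℤ => 2 * ρ + K) R := fun a _ b _ h => by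
    simp only at h; omega
  have hUc : U.card = R.card := card_image_of_injOn hinj
  have hb := bilinear_le f hF (by omega) U A
    (by
      intro u hu u' hu'
      obtain ⟨ρ, hρ, rfl⟩ := mem_image.1 hu
      obtain ⟨ρ', hρ', rfl⟩ := mem_image.1 hu'
      have := hR ρ hρ; have := hR ρ' hρ'
      rw [abs_lt]; constructor <;> omega)
    (by
      intro u hu u' hu'
      have := hA u hu; have := hA u' hu'
      rw [abs_lt]; constructor <;> omega)
    (by
      intro u hu v hv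
      obtain ⟨ρ, hρ, rfl⟩ := mem_image.1 hu
      have := hR ρ hρ; have := hA v hv
      constructor <;> omega) (c := 4 * q) (by positivity)
  rw [sum_image hinj, hUc] at hb
  have hAK : (A.card : ℝ) ≤ K := by
    have : A ⊆ Ico (0 : ℤ) K := fun x hx => mem_Ico.2 (hA x hx)
    have := card_le_card this
    simp only [Int.card_Ico, sub_zero, Int.toNat_natCast] at this
    exact_mod_cast this
  have hrow : ∀ ρ ∈ R, ∑ v ∈ A, f (2 * ρ + K - v) ≤ -(5 * r) := by
    intro ρ hρ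
    have h1 : ∀ v ∈ A, f (2 * ρ + K - v) ≤ (if 2 * ρ - v + K ∈ Bad then 1 else 0) - β := by
      intro v hv
      have := hR ρ hρ; have := hA v hv
      have h2 : f (2 * ρ + K - v) = ind B (2 * ρ + K - v) - β := if_pos ⟨by omega, by omega⟩
      rw [h2]
      split_ifs with hb
      · linarith [ind_le_one B (2 * ρ + K - v)]
      · have : ¬ B (2 * ρ + K - v) := fun h =>
          hb (hcon ρ hρ v hv (by rwa [show 2 * ρ - v + K = 2 * ρ + K - v by ring]))
        rw [ind_of_not B this]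
    refine (sum_le_sum h1).trans ?_
    rw [sum_sub_distrib, sum_boole]
    have h3 : (A.filter (fun v => 2 * ρ - v + K ∈ Bad)).card ≤ Bad.card := by
      apply card_le_card_of_injOn (fun v => 2 * ρ - v + K)
      · intro v hv
        exact (mem_filter.1 hv).2
      · intro a _ b _ h
        simp only at h; omega
    have h4 : ((A.filter (fun v => 2 * ρ - v + K ∈ Bad)).card : ℝ) ≤ 3 * r := by
      exact_mod_cast h3.trans hBad
    have h5 : 8 * (r : ℝ) ≤ A.card * β := by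
      calc 8 * (r : ℝ) = K / (2 * q) * (1 / q) := by rw [hKr]; field_simp; ring
        _ ≤ A.card * β := mul_le_mul hAc hβ0 (by positivity) (by positivity)
    simp only [sum_const, nsmul_eq_mul]
    linarith
  have hsum : ∑ ρ ∈ R, ∑ v ∈ A, f (2 * ρ + K - v) ≤ -(5 * r) * R.card := by
    refine (sum_le_sum hrow).trans (le_of_eq ?_)
    simp [mul_comm]
  have hRc' : (r : ℝ) ≤ R.card := by exact_mod_cast hRc
  have h6 : (A.card : ℝ) / (4 * q) ≤ 4 * q * R.card := by
    rw [div_le_iff₀ (by positivity)]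
    calc (A.card : ℝ) ≤ 16 * q ^ 2 * r := hKr ▸ hAK
      _ ≤ 16 * q ^ 2 * R.card := by gcongr
      _ = _ := by ring
  have h7 : Λ * (4 * q * R.card + A.card / (4 * q)) / 2 ≤ Λ * (4 * q * R.card) := by
    have := mul_le_mul_of_nonneg_left h6 hΛ0
    nlinarith
  have h8 := (neg_le_abs _).trans (hb.trans h7)
  have h9 : 5 * r * (R.card : ℝ) ≤ 4 * q * Λ * R.card := by linarith
  have h10 : (0 : ℝ) < R.card := by linarith
  have := le_of_mul_le_mul_right h9 h10
  linarith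

end Pool.Agent.Lib.MP_43444d_nt
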