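import Mathlib

set_option autoImplicit false

namespace Pool.Agent.Lib.MP_43444d_nt

open Finset

/-- A quadratic potential with concave kinks at the bad windows. -/
noncomputable def pot (E : Finset ℤ) (K c x : ℝ) : ℝ :=
  (x - c) ^ 2 - 4 * K * ∑ e ∈ E, |x - e * K|

theorem card_le_of_jump (E : Finset ℤ) (k : ℤ) (s : Finset ℕ)
    (h : ∀ j ∈ s, k + j ∈ E ∨ k - j ∈ E) :
    ∃ e : ℕ → ℤ, Set.InjOn e s ∧ (∀ j ∈ s, e j ∈ E) ∧ ∀ j, e j = k + j ∨ e j = k - j := by
  classical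
  refine ⟨fun j => if k + j ∈ E then k + j else k - j, ?_, ?_, ?_⟩
  · intro a _ b _ hab
    simp only at hab
    split_ifs at hab <;> omega
  · intro j hj
    simp only
    split_ifs with h1
    · exact h1
    · exact (h j hj).resolve_left h1
  · intro j
    simp only
    split_ifs
    · left; rfl
    · right; rfl

theorem sum_lin (j : ℕ) (hj : 2 ≤ j) :
    ∑ j' ∈ Ico 2 j, (2 * ((j : ℝ) - j' - 3)) = (j - 2) * (j - 7) := by
  have h : ∀ n : ℕ, ∑ j' ∈ Ico 2 (n + 2), (j' : ℝ) = n * (n + 3) / 2 := by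
    intro n
    induction n with
    | zero => simp
    | succ n ih =>
      rw [show n + 1 + 2 = (n + 2) + 1 by ring, sum_Ico_succ_top (by omega), ih]
      push_cast; ring
  obtain ⟨n, rfl⟩ : ∃ n, j = n + 2 := ⟨j - 2, by omega⟩
  rw [← mul_sum, sum_sub_distrib, sum_sub_distrib, h]
  simp only [sum_const, Nat.card_Ico, nsmul_eq_mul]
  rw [show n + 2 - 2 = n by omega]
  push_cast; ring

theorem pot_second (E : Finset ℤ) {K : ℝ} (hK : 0 ≤ K) (c : ℝ) (k : ℤ) (j : ℕ) (hj : 2 ≤ j)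
    {n i : ℝ} (hn1 : k * K ≤ n) (hn2 : n ≤ (k + 1) * K) (hi1 : (j - 2) * K ≤ i)
    (hi2 : i ≤ (j + 2) * K)
    (h : ∀ j' : ℕ, 2 ≤ j' → j' < j → k + j' ∈ E ∨ k - j' ∈ E) :
    pot E K c (n + i) + pot E K c (n - i) - 2 * pot E K c n ≤ 200 * K ^ 2 := by
  classical
  obtain ⟨e, he1, he2, he3⟩ := card_le_of_jump E k (Ico 2 j)
    (fun j' hj' => h j' (mem_Ico.1 hj').1 (mem_Ico.1 hj').2)
  have hjr : (2 : ℝ) ≤ j := by exact_mod_cast hj
  have hi0 : 0 ≤ i := le_trans (mul_nonneg (by linarith) hK) hi1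
  set D : ℤ → ℝ := fun e => |n + i - e * K| + |n - i - e * K| - 2 * |n - e * K| with hD
  have hD0 : ∀ e, 0 ≤ D e := by
    intro e
    have := abs_add_le (n + i - e * K) (n - i - e * K)
    rw [show n + i - e * K + (n - i - e * K) = 2 * (n - e * K) by ring, abs_mul] at this
    simp only [hD]
    norm_num at this
    linarith
  have hD1 : ∀ e : ℤ, 2 * i - 2 * |n - e * K| ≤ D e := by
    intro e
    have h1 := le_abs_self (n + i - e * K)
    have h2 := neg_le_abs (n - i - e * K)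
    simp only [hD]
    linarith
  have hsum : (j - 2) * (j - 7) * K ≤ ∑ e ∈ E, D e := by
    calc (j - 2) * (j - 7) * K = ∑ j' ∈ Ico 2 j, (2 * ((j : ℝ) - j' - 3)) * K := by
          rw [← sum_mul, sum_lin j hj]
      _ ≤ ∑ j' ∈ Ico 2 j, D (e j') := by
          refine sum_le_sum fun j' _ => le_trans ?_ (hD1 _)
          have hj0 : (0 : ℝ) ≤ j' * K := mul_nonneg (Nat.cast_nonneg _) hK
          have : |n - e j' * K| ≤ (j' + 1) * K := by
            rcases he3 j' with h1 | h1 <;> rw [h1, abs_le] <;> push_cast <;>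
              constructor <;> nlinarith
          nlinarith
      _ = ∑ x ∈ (Ico 2 j).image e, D x := (sum_image he1).symm
      _ ≤ ∑ e ∈ E, D e := by
          apply sum_le_sum_of_subset_of_nonneg
          · intro x hx
            obtain ⟨j', hj', rfl⟩ := mem_image.1 hx
            exact he2 j' hj'
          · exact fun x _ _ => hD0 x
  have hexp : pot E K c (n + i) + pot E K c (n - i) - 2 * pot E K c n =
      2 * i ^ 2 - 4 * K * ∑ e ∈ E, D e := by
    simp only [pot, hD, sum_sub_distrib, sum_add_distrib, ← mul_sum]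
    ring
  rw [hexp]
  have h1 : i ^ 2 ≤ ((j + 2) * K) ^ 2 := pow_le_pow_left₀ hi0 hi2 2
  have h2 := mul_le_mul_of_nonneg_left hsum (by positivity : 0 ≤ 4 * K)
  have h3 : 0 ≤ K ^ 2 * (2 * ((j : ℝ) - 11) ^ 2 + 6) := by positivity
  nlinarith

theorem pot_chord (E : Finset ℤ) {K : ℝ} (hK : 0 ≤ K) (c : ℝ) {a g b : ℝ} (hag : a ≤ g)
    (hgb : g ≤ b) :
    (b - g) * pot E K c a + (g - a) * pot E K c b ≤
      (b - a) * pot E K c g + (b - a) * (g - a) * (b - g) := by
  have h : (b - a) * ∑ e ∈ E, |g - e * K| ≤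
      (b - g) * ∑ e ∈ E, |a - e * K| + (g - a) * ∑ e ∈ E, |b - e * K| := by
    rw [mul_sum, mul_sum, mul_sum, ← sum_add_distrib]
    refine sum_le_sum fun e _ => ?_
    have h1 := abs_add_le ((b - g) * (a - e * K)) ((g - a) * (b - e * K))
    rw [show (b - g) * (a - e * K) + (g - a) * (b - e * K) = (b - a) * (g - e * K) by ring,
      abs_mul, abs_mul, abs_mul, abs_of_nonneg (by linarith : 0 ≤ b - a),
      abs_of_nonneg (by linarith : 0 ≤ b - g), abs_of_nonneg (by linarith : 0 ≤ g - a)] at h1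
    exact h1
  have h2 := mul_le_mul_of_nonneg_left h (by positivity : 0 ≤ 4 * K)
  unfold pot
  nlinarith

theorem pot_sub_ge (E : Finset ℤ) {K : ℝ} (hK : 0 ≤ K) (c x y : ℝ) :
    (x - c) ^ 2 - (y - c) ^ 2 - 4 * K * E.card * |x - y| ≤ pot E K c x - pot E K c y := by
  have h : ∑ e ∈ E, |x - e * K| ≤ ∑ e ∈ E, |y - e * K| + E.card * |x - y| := by
    calc _ ≤ ∑ e ∈ E, (|y - e * K| + |x - y|) := by
          refine sum_le_sum fun e _ => ?_
          have := abs_add_le (y - e * K) (x - y)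
          rwa [show y - e * K + (x - y) = x - e * K by ring] at this
      _ = _ := by rw [sum_add_distrib]; simp
  have h2 := mul_le_mul_of_nonneg_left h (by positivity : 0 ≤ 4 * K)
  unfold pot
  nlinarith

theorem exists_jump (E : Finset ℤ) (k : ℤ) :
    ∃ j : ℕ, 2 ≤ j ∧ j ≤ E.card + 2 ∧ k + j ∉ E ∧ k - j ∉ E ∧
      ∀ j' : ℕ, 2 ≤ j' → j' < j → k + j' ∈ E ∨ k - j' ∈ E := by
  classical
  have hex : ∃ j : ℕ, 2 ≤ j ∧ j ≤ E.card + 2 ∧ k + j ∉ E ∧ k - j ∉ E := by
    by_contra hcon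
    push Not at hcon
    obtain ⟨e, he1, he2, _⟩ := card_le_of_jump E k (Ico 2 (E.card + 3)) (by
      intro j hj
      rw [mem_Ico] at hj
      by_cases h : k + j ∈ E
      · exact Or.inl h
      · exact Or.inr (hcon j hj.1 (by omega) h))
    have := card_le_card_of_injOn e he2 he1
    rw [Nat.card_Ico] at this
    omega
  refine ⟨Nat.find hex, (Nat.find_spec hex).1, (Nat.find_spec hex).2.1, (Nat.find_spec hex).2.2.1,
    (Nat.find_spec hex).2.2.2, fun j' h2 hj' => ?_⟩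
  have h1 := Nat.find_min hex hj'
  have h3 := (Nat.find_spec hex).2.1
  by_contra hcon
  push Not at hcon
  exact h1 ⟨h2, by omega, hcon.1, hcon.2⟩

/-- Selection of the window with the largest `r`-th largest value. -/
theorem exists_quantile (I : Finset ℤ) (W : ℤ → Finset ℤ) (h : ℤ → ℤ → ℝ) {r : ℕ} (hr : 1 ≤ r)
    {k0 : ℤ} (hk0 : k0 ∈ I) (hW : r ≤ (W k0).card) :
    ∃ t : ℝ, ∃ k ∈ I, r ≤ ((W k).filter (fun x => t ≤ h k x)).card ∧
      ∀ k' ∈ I, ((W k').filter (fun x => t < h k' x)).card < r := by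
  classical
  let P : ℝ → Prop := fun t => ∃ k ∈ I, r ≤ ((W k).filter (fun x => t ≤ h k x)).card
  let V : Finset ℝ := (I.biUnion (fun k => (W k).image (h k))).filter P
  have aux : ∀ k ∈ I, ∀ s : Finset ℤ, s ⊆ W k → r ≤ s.card → ∃ x ∈ s, h k x ∈ V := by
    intro k hk s hs hrs
    obtain ⟨x, hx, hmin⟩ := exists_min_image s (h k) (card_pos.1 (by omega))
    refine ⟨x, hx, mem_filter.2 ⟨mem_biUnion.2 ⟨k, hk, mem_image_of_mem _ (hs hx)⟩, k, hk, ?_⟩⟩
    refine hrs.trans (card_le_card fun y hy => mem_filter.2 ⟨hs hy, hmin y hy⟩)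
  obtain ⟨x0, _, hx0⟩ := aux k0 hk0 (W k0) subset_rfl hW
  obtain ⟨t, ht, hmax⟩ := exists_max_image V id ⟨_, hx0⟩
  obtain ⟨k, hk, hkr⟩ := (mem_filter.1 ht).2
  refine ⟨t, k, hk, hkr, fun k' hk' => ?_⟩
  by_contra hcon
  push Not at hcon
  obtain ⟨x, hx, hxV⟩ := aux k' hk' _ (filter_subset _ _) hcon
  exact absurd (hmax _ hxV) (not_le.2 (mem_filter.1 hx).2)

end Pool.Agent.Lib.MP_43444d_nt
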