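import Mathlib
import Pool.Agent.Lib.MP_43444d_nt.Counting
import Pool.Agent.Lib.MP_43444d_nt.Potential

set_option autoImplicit false

namespace Pool.Agent.Lib.MP_43444d_nt

open Finset

theorem exists_affine {S : ℤ → Prop} {F : ℤ → ℝ} {M : ℤ} {T : ℝ} (hT : 0 ≤ T)
    (h : ¬ Defect S F M T) {y1 y2 : ℤ} (h0 : 0 ≤ y1) (h12 : y1 < y2) (h2 : y2 < M)
    (s1 : S y1) (s2 : S y2) :
    ∃ s t : ℝ, (∀ y, S y → y1 ≤ y → y ≤ y2 → -T ≤ F y - (s * y + t)) ∧
      (∀ x, S x → 0 ≤ x → x < M → (x < y1 ∨ y2 < x) → F x - (s * x + t) ≤ T * M) := by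
  unfold Defect at h
  push Not at h
  have h12r : (y1 : ℝ) + 1 ≤ y2 := by exact_mod_cast h12
  have h0r : (0 : ℝ) ≤ y1 := by exact_mod_cast h0
  have h2r : (y2 : ℝ) < M := by exact_mod_cast h2
  obtain ⟨s, hs⟩ : ∃ s : ℝ, s * (y2 - y1) = F y2 - F y1 :=
    ⟨(F y2 - F y1) / (y2 - y1), div_mul_cancel₀ _ (by linarith)⟩
  obtain ⟨t, ht⟩ : ∃ t : ℝ, F y1 = s * y1 + t := ⟨F y1 - s * y1, by ring⟩
  have ht2 : F y2 = s * y2 + t := by linarith
  refine ⟨s, t, fun y sy hy1 hy2 => ?_, fun x sx hx0 hxM hx => ?_⟩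
  · rcases hy1.eq_or_lt with rfl | hy1
    · linarith
    rcases hy2.eq_or_lt with rfl | hy2
    · linarith
    have := h y1 y y2 h0 hy1 hy2 h2 s1 sy s2
    rw [ht, ht2] at this
    by_contra hc
    push Not at hc
    nlinarith
  · have hx0r : (0 : ℝ) ≤ x := by exact_mod_cast hx0
    have hxMr : (x : ℝ) < M := by exact_mod_cast hxM
    by_contra hc
    push Not at hc
    have hTM : 0 ≤ T * M := mul_nonneg hT (by linarith)
    rcases hx with hx | hx
    · have := h x y1 y2 hx0 hx h12 h2 sx s1 s2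
      rw [ht, ht2] at this
      have h3 : ((y2 : ℝ) - x) * T ≤ M * T := mul_le_mul_of_nonneg_right (by linarith) hT
      have h4 : 1 * (F x - (s * x + t)) ≤ ((y2 : ℝ) - y1) * (F x - (s * x + t)) :=
        mul_le_mul_of_nonneg_right (by linarith) (by linarith)
      nlinarith
    · have := h y1 y2 x h0 h12 hx hxM s1 s2 sx
      rw [ht, ht2] at this
      have h3 : ((x : ℝ) - y1) * T ≤ M * T := mul_le_mul_of_nonneg_right (by linarith) hT
      have h4 : 1 * (F x - (s * x + t)) ≤ ((y2 : ℝ) - y1) * (F x - (s * x + t)) :=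
        mul_le_mul_of_nonneg_right (by linarith) (by linarith)
      nlinarith

/-- Markov-type bound for the number of windows below the average. -/
theorem card_bad_le {m : ℕ} (w : ℤ → ℝ) {B g g' : ℝ} (hw : ∀ k : ℕ, k < m → w k ≤ B)
    (hs : (B - g) * m ≤ ∑ k ∈ range m, w k) :
    (((Ico (0 : ℤ) m).filter (fun k => w k < B - g')).card : ℝ) * g' ≤ g * m := by
  classical
  have h1 : ∑ k ∈ range m, w k = ∑ k ∈ Ico (0 : ℤ) m, w k := by
    apply sum_bij (fun (j : ℕ) _ => (j : ℤ))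
    · intro j hj
      rw [mem_Ico]
      exact ⟨by omega, by exact_mod_cast mem_range.1 hj⟩
    · intro a _ b _ h
      exact_mod_cast h
    · intro x hx
      rw [mem_Ico] at hx
      exact ⟨x.toNat, mem_range.2 (by omega), Int.toNat_of_nonneg hx.1⟩
    · intros; rfl
  have h2 : ∀ k ∈ Ico (0 : ℤ) m, w k ≤ B - g' * (if w k < B - g' then 1 else 0) := by
    intro k hk
    rw [mem_Ico] at hk
    split_ifs with h
    · linarith
    · have := hw k.toNat (by omega)
      rw [Int.toNat_of_nonneg hk.1] at this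
      linarith
  have h3 := sum_le_sum h2
  rw [sum_sub_distrib, ← mul_sum, sum_boole] at h3
  simp only [sum_const, Int.card_Ico, sub_zero, Int.toNat_natCast, nsmul_eq_mul] at h3
  rw [h1] at hs
  linarith

/-- Far points have much larger potential than central points. -/
theorem pot_far (E : Finset ℤ) {K M x y : ℝ} (hK : 0 ≤ K) (hE : E.card * K ≤ M / 200)
    (hx0 : 0 ≤ x) (hxM : x ≤ M) (hx : M / 4 ≤ |x - M / 2|) (hy : |y - M / 2| ≤ M / 100) :
    M ^ 2 / 25 ≤ pot E K (M / 2) x - pot E K (M / 2) y := by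
  have hM : 0 ≤ M := hx0.trans hxM
  refine le_trans ?_ (pot_sub_ge E hK _ x y)
  have h1 : (M / 4) ^ 2 ≤ (x - M / 2) ^ 2 := by
    rw [← sq_abs (x - M / 2)]
    exact pow_le_pow_left₀ (by linarith) hx 2
  have h2 : (y - M / 2) ^ 2 ≤ (M / 100) ^ 2 := by
    rw [← sq_abs (y - M / 2)]
    exact pow_le_pow_left₀ (abs_nonneg _) hy 2
  have h3 : |x - y| ≤ M := by
    rw [abs_le] at hy ⊢
    constructor <;> linarith
  have h4 : E.card * K * |x - y| ≤ M / 200 * M :=
    mul_le_mul hE h3 (abs_nonneg _) (by linarith)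
  nlinarith

theorem stepA {q ℓ T Q r K m : ℕ} (hq : 1 ≤ q) (hℓ : 1 ≤ ℓ) (hT : 1 ≤ T)
    (hQ : Q = 1280 * q ^ 3 * ℓ) (hr : r = 16 * q * ℓ * Q) (hK : K = 16 * q ^ 2 * r)
    (hm : m = 30000 * K * T) {β : ℝ} (hβ0 : 1 / (q : ℝ) ≤ β) (hβ1 : β ≤ 1)
    {S : ℤ → Prop} {F : ℤ → ℝ} (hS : MidConv S F)
    (hAP : ∀ a d : ℤ, 0 ≤ a → 0 < d → a + d * ℓ ≤ (m * K : ℕ) → apSum S a d ℓ ≤ β * ℓ)
    (hden : (β - 1 / (115200 * (q : ℝ) ^ 3)) * (m * K : ℕ) ≤ apSum S 0 1 (m * K)) :
    Defect S F (m * K : ℕ) T := by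
  classical
  by_contra hcon
  have hqr : (1 : ℝ) ≤ q := by exact_mod_cast hq
  have hQpos : 0 < Q := by rw [hQ]; positivity
  have hrpos : 1 ≤ r := by rw [hr]; exact Nat.succ_le_of_lt (by positivity)
  have hKpos : 0 < K := by rw [hK]; positivity
  have hrr : (1 : ℝ) ≤ r := by exact_mod_cast hrpos
  have hKr : (K : ℝ) = 16 * q ^ 2 * r := by rw [hK]; push_cast; ring
  have hKr1 : (1 : ℝ) ≤ K := by exact_mod_cast hKpos
  have hTr : (1 : ℝ) ≤ T := by exact_mod_cast hT
  have hmr : (m : ℝ) = 30000 * K * T := by rw [hm]; push_cast; ring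
  have hm1 : 30000 ≤ m := by
    rw [hm]
    calc 30000 = 30000 * 1 * 1 := by norm_num
      _ ≤ 30000 * K * T := by gcongr; exact hKpos
  have hr0 : (0 : ℝ) ≤ r := Nat.cast_nonneg r
  have hK0 : (0 : ℝ) ≤ K := Nat.cast_nonneg K
  set γ' : ℝ := 1 / (192 * (q : ℝ) ^ 3) with hγ'
  have hγ'pos : 0 < γ' := by positivity
  -- windows
  have hwin : ∀ k : ℕ, k < m → apSum S ((k : ℤ) * K) 1 K ≤ β * K := by
    intro k hk
    have hKℓ : K = (256 * q ^ 3 * Q) * ℓ := by rw [hK, hr]; ring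
    set u := 256 * q ^ 3 * Q
    have h1 := apSum_blocks S ((k : ℤ) * K) u ℓ
    rw [← hKℓ] at h1
    rw [h1]
    calc _ ≤ ∑ _j ∈ range u, β * ℓ := by
          refine sum_le_sum fun j hj => hAP _ _ (by positivity) one_pos ?_
          have h2 : (j + 1) * ℓ ≤ K := by
            rw [hKℓ]; exact Nat.mul_le_mul_right _ (mem_range.1 hj)
          have h3 : (k + 1) * K ≤ m * K := Nat.mul_le_mul_right _ hk
          have h4 : k * K + j * ℓ + ℓ ≤ m * K := by linarith only [h2, h3]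
          rw [one_mul]
          exact_mod_cast h4
      _ = β * K := by
          rw [sum_const, card_range, nsmul_eq_mul]
          conv_rhs => rw [hKℓ]
          push_cast; ring
  set Bad0 : Finset ℤ := (Ico (0 : ℤ) m).filter
    (fun k => apSum S (k * K) 1 K < β * K - γ' * K) with hBad0
  have hBad0c : (Bad0.card : ℝ) ≤ m / 600 := by
    have h1 := card_bad_le (m := m) (fun k => apSum S (k * K) 1 K) (B := β * K)
      (g := 1 / (115200 * (q : ℝ) ^ 3) * K) (g' := γ' * K) hwin (by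
        rw [apSum_blocks] at hden
        simp only [zero_add] at hden
        push_cast at hden
        linarith)
    rw [← hBad0] at h1
    have h2 : 1 / (115200 * (q : ℝ) ^ 3) * K * m = m / 600 * (γ' * K) := by
      rw [hγ']; field_simp; ring
    rw [h2] at h1
    exact le_of_mul_le_mul_right h1 (by positivity)
  set E : Finset ℤ := Bad0 ∪ Bad0.image (· + 1) ∪ Bad0.image (· - 1) with hE
  have hEc : (E.card : ℝ) ≤ m / 200 := by
    have h1 : E.card ≤ Bad0.card + Bad0.card + Bad0.card :=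
      (card_union_le _ _).trans (add_le_add ((card_union_le _ _).trans
        (add_le_add le_rfl card_image_le)) card_image_le)
    have h2 : (E.card : ℝ) ≤ Bad0.card + Bad0.card + Bad0.card := by exact_mod_cast h1
    linarith
  have hEc' : 200 * E.card ≤ m := by
    have : (200 * E.card : ℝ) ≤ m := by linarith
    exact_mod_cast this
  have hgood : ∀ k : ℤ, 0 ≤ k → k < m → k ∉ Bad0 → β * K - γ' * K ≤ apSum S (k * K) 1 K := by
    intro k h0 h1 h2
    by_contra h3
    exact h2 (mem_filter.2 ⟨mem_Ico.2 ⟨h0, h1⟩, not_le.1 h3⟩)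
  have hE0 : ∀ k, k ∉ E → k ∉ Bad0 := fun k hk h =>
    hk (mem_union_left _ (mem_union_left _ h))
  have hE1 : ∀ k, k ∉ E → k - 1 ∉ Bad0 := fun k hk h =>
    hk (mem_union_left _ (mem_union_right _ (mem_image.2 ⟨_, h, by ring⟩)))
  have hE2 : ∀ k, k ∉ E → k + 1 ∉ Bad0 := fun k hk h =>
    hk (mem_union_right _ (mem_image.2 ⟨_, h, by ring⟩))
  have hbig : (K : ℝ) / (2 * q) + r ≤ β * K - γ' * K := by
    have h1 : 1 / (q : ℝ) * K ≤ β * K := mul_le_mul_of_nonneg_right hβ0 hK0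
    have h2 : γ' * K ≤ r := by
      rw [hγ', hKr, div_mul_eq_mul_div, one_mul, div_le_iff₀ (by positivity)]
      have : (q : ℝ) ^ 2 ≤ q ^ 3 := pow_le_pow_right₀ hqr (by norm_num)
      have h3 : (0 : ℝ) ≤ q ^ 3 := by positivity
      linarith only [mul_le_mul_of_nonneg_right this hr0, mul_nonneg h3 hr0]
    have h3 : (K : ℝ) / (2 * q) = 8 * q * r := by rw [hKr]; field_simp; ring
    have h4 : 1 / (q : ℝ) * K = 16 * q * r := by rw [hKr]; field_simp
    rw [h3]; rw [h4] at h1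
    linarith only [h1, h2, mul_le_mul_of_nonneg_right hqr hr0, hr0]
  have hK2q : 8 * (r : ℝ) ≤ K / (2 * q) := by
    have h3 : (K : ℝ) / (2 * q) = 8 * q * r := by rw [hKr]; field_simp; ring
    rw [h3]; linarith only [mul_le_mul_of_nonneg_right hqr hr0]
  let W : ℤ → Finset ℤ := fun k => (Ico (0 : ℤ) K).filter (fun x => S (k * K + x))
  have hWc : ∀ k : ℤ, ((W k).card : ℝ) = apSum S (k * K) 1 K := fun k =>
    (apSum_eq_card S _ K).symm
  have hWm : ∀ k x, x ∈ W k → 0 ≤ x ∧ x < K ∧ S (k * K + x) := by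
    intro k x hx
    have := mem_filter.1 hx
    exact ⟨(mem_Ico.1 this.1).1, (mem_Ico.1 this.1).2, this.2⟩
  -- the central window
  obtain ⟨j0, _, hj0, hj0E, -, -⟩ := exists_jump E ((m / 2 : ℕ) : ℤ)
  set kc : ℤ := ((m / 2 : ℕ) : ℤ) + j0 with hkc
  have hkc0 : 0 ≤ kc := by omega
  have hkcm : kc < m := by omega
  have hWkc : (9 * r : ℝ) ≤ (W kc).card := by
    rw [hWc]
    have := hgood kc hkc0 hkcm (hE0 _ hj0E)
    linarith only [this, hbig, hK2q]
  have hWkc' : 9 * r ≤ (W kc).card := by exact_mod_cast hWkc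
  have hne : (W kc).Nonempty := card_pos.1 (by omega)
  have hlt : (W kc).min' hne < (W kc).max' hne := min'_lt_max'_of_card _ (by omega)
  have hx1 := hWm _ _ (min'_mem _ hne)
  have hx2 := hWm _ _ (max'_mem _ hne)
  have hKz : (0 : ℤ) < K := by exact_mod_cast hKpos
  have hpos : ∀ k x : ℤ, 0 ≤ k → k < m → 0 ≤ x → x < K →
      0 ≤ k * K + x ∧ k * K + x < (m * K : ℕ) := by
    intro k x h1 h2 h3 h4
    push_cast
    have h5 := mul_le_mul_of_nonneg_right (show k + 1 ≤ m from h2) hKz.le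
    exact ⟨add_nonneg (mul_nonneg h1 hKz.le) h3, by linarith only [h5, h4]⟩
  obtain ⟨s, t0, haff1, haff2⟩ := exists_affine (by positivity) hcon
    (y1 := kc * K + (W kc).min' hne) (y2 := kc * K + (W kc).max' hne)
    (hpos _ _ hkc0 hkcm hx1.1 hx1.2.1).1 (by omega) (hpos _ _ hkc0 hkcm hx2.1 hx2.2.1).2
    hx1.2.2 hx2.2.2
  set M : ℝ := m * K with hM
  have hMc : (((m * K : ℕ) : ℤ) : ℝ) = M := by rw [hM]; push_cast; ring
  rw [hMc] at haff2
  set κ : ℝ := 1 / (400 * (K : ℝ) ^ 2) with hκ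
  have hκpos : 0 < κ := by positivity
  let h : ℤ → ℝ := fun x => F x - (s * x + t0) - κ * pot E K (M / 2) x
  obtain ⟨t, k, hk, hRc, hall⟩ := exists_quantile (Ico (0 : ℤ) m) W (fun k x => h (k * K + x))
    hrpos (mem_Ico.2 ⟨hkc0, hkcm⟩) (by omega)
  rw [mem_Ico] at hk
  -- a central point below the threshold
  obtain ⟨y, hyW, hyt⟩ : ∃ y ∈ W kc, h (kc * K + y) ≤ t := by
    by_contra hc
    push Not at hc
    have := hall kc (mem_Ico.2 ⟨hkc0, hkcm⟩)
    rw [filter_true_of_mem hc] at this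
    omega
  have hmr1 : (30000 : ℝ) ≤ m := by exact_mod_cast hm1
  have hEK : E.card * (K : ℝ) ≤ M / 200 := by
    rw [hM]; linarith only [mul_le_mul_of_nonneg_right hEc hK0]
  have hcen : ∀ z ∈ W kc, |((kc * K + z : ℤ) : ℝ) - M / 2| ≤ M / 100 := by
    intro z hz
    obtain ⟨hz0, hzK, -⟩ := hWm _ _ hz
    have hz0r : (0 : ℝ) ≤ z := by exact_mod_cast hz0
    have hzKr : (z : ℝ) ≤ K := by exact_mod_cast hzK.le
    have h1 : (m : ℝ) ≤ 2 * kc + 1 := by
      have : (m : ℤ) ≤ 2 * kc + 1 := by omega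
      exact_mod_cast this
    have h2 : 200 * (kc : ℝ) ≤ 101 * m + 400 := by
      have : 200 * kc ≤ 101 * (m : ℤ) + 400 := by omega
      exact_mod_cast this
    push_cast
    rw [abs_le, hM]
    constructor <;> linarith only [mul_le_mul_of_nonneg_right h1 hK0,
      mul_le_mul_of_nonneg_right h2 hK0, mul_le_mul_of_nonneg_right hmr1 hK0, hK0, hz0r, hzKr]
  have hRne : ((W k).filter (fun x => t ≤ h (k * K + x))).Nonempty := card_pos.1 (by omega)
  have hmid : (m : ℤ) ≤ 4 * k + 4 ∧ 4 * k ≤ 3 * m := by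
    obtain ⟨ρ, hρ⟩ := hRne
    obtain ⟨hρW, hρt⟩ := mem_filter.1 hρ
    obtain ⟨hρ0, hρK, hρS⟩ := hWm _ _ hρW
    obtain ⟨hn0, hnM⟩ := hpos k ρ hk.1 hk.2 hρ0 hρK
    have hn0r : (0 : ℝ) ≤ ((k * K + ρ : ℤ) : ℝ) := by exact_mod_cast hn0
    have hnMr : ((k * K + ρ : ℤ) : ℝ) ≤ M := by rw [← hMc]; exact_mod_cast hnM.le
    have hM0 : 0 < M := by rw [hM]; positivity
    have hnear : |((k * K + ρ : ℤ) : ℝ) - M / 2| < M / 4 := by
      by_contra hfar
      push Not at hfar
      have h1 := pot_far E hK0 hEK hn0r hnMr hfar (hcen y hyW)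
      have h2 := haff1 (kc * K + y) (hWm _ _ hyW).2.2
        (by have := min'_le _ _ hyW; omega) (by have := le_max' _ _ hyW; omega)
      have h3 := haff2 (k * K + ρ) hρS hn0 hnM (by
        by_contra hc
        push Not at hc
        have c1 := hcen _ (min'_mem _ hne)
        have c2 := hcen _ (max'_mem _ hne)
        have c3 : ((kc * K + (W kc).min' hne : ℤ) : ℝ) ≤ ((k * K + ρ : ℤ) : ℝ) := by
          exact_mod_cast hc.1
        have c4 : ((k * K + ρ : ℤ) : ℝ) ≤ ((kc * K + (W kc).max' hne : ℤ) : ℝ) := by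
          exact_mod_cast hc.2
        rw [abs_le] at c1 c2
        rw [le_abs] at hfar
        rcases hfar with hfar | hfar <;> linarith only [hfar, c1.1, c2.2, c3, c4, hM0])
      have h4 := mul_le_mul_of_nonneg_left h1 hκpos.le
      have h5 : κ * (M ^ 2 / 25) = m ^ 2 / 10000 := by rw [hκ, hM]; field_simp; ring
      have h6 : h (kc * K + y) ≤ h (k * K + ρ) := hyt.trans hρt
      simp only [h] at h6
      have h7 : (m : ℝ) ^ 2 / 10000 = 3 * (T * M) := by
        rw [hM, pow_two, mul_div_assoc]; nth_rewrite 2 [hmr]; ring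
      have h8 : (1 : ℝ) ≤ M := by
        rw [hM]; linarith only [mul_le_mul_of_nonneg_right hmr1 hK0, hKr1]
      have h9 : (T : ℝ) * 1 ≤ T * M := mul_le_mul_of_nonneg_left h8 (Nat.cast_nonneg T)
      linarith only [h2, h3, h4, h5, h6, h7, h9, hTr]
    rw [abs_lt, hM] at hnear
    push_cast at hnear
    have hρ0r : (0 : ℝ) ≤ ρ := by exact_mod_cast hρ0
    have hρKr : (ρ : ℝ) ≤ K := by exact_mod_cast hρK.le
    have hKr0 : (0 : ℝ) < K := zero_lt_one.trans_le hKr1
    constructor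
    · have : (m : ℝ) * K ≤ (4 * k + 4) * K := by linarith only [hnear.1, hρKr]
      have := le_of_mul_le_mul_right this hKr0
      exact_mod_cast this
    · have : (4 * k : ℝ) * K ≤ (3 * m) * K := by linarith only [hnear.2, hρ0r]
      have := le_of_mul_le_mul_right this hKr0
      exact_mod_cast this
  obtain ⟨j, hj2, hjE, hjp, hjm, hjall⟩ := exists_jump E k
  set b0 : ℤ := (k + j - 1) * K with hb0
  have hb00 : 0 ≤ b0 := mul_nonneg (by omega) hKz.le
  have hb0M : b0 + 3 * K ≤ m * K := by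
    have : (k + j + 2) * K ≤ m * K := mul_le_mul_of_nonneg_right (by omega) hKz.le
    rw [hb0]; linarith only [this]
  have h3K : ∀ S' : ℤ → Prop, apSum S' b0 1 (3 * K) =
      apSum S' ((k + j - 1) * K) 1 K + apSum S' ((k + j) * K) 1 K +
        apSum S' ((k + j + 1) * K) 1 K := by
    intro S'
    rw [apSum_blocks, sum_range_succ, sum_range_succ, sum_range_one, hb0]
    congr 2
    · simp
    · congr 1; push_cast; ring
    · push_cast; ring
  have hbadw : ∀ k' : ℤ, 0 ≤ k' → k' < m →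
      apSum (fun z => S z ∧ t < h z) (k' * K) 1 K ≤ r := by
    intro k' h0 h1
    rw [apSum_eq_card]
    have := hall k' (mem_Ico.2 ⟨h0, h1⟩)
    simp only [W, filter_filter] at this
    have h2 : ((filter (fun x => S (k' * K + x) ∧ t < h (k' * K + x)) (Ico (0 : ℤ) K)).card : ℝ)
        ≤ r := by exact_mod_cast this.le
    convert h2
  obtain ⟨ρ, hρ, x, hx, hB, hBad⟩ := counting hq hrpos hℓ hQpos hK hβ0 hβ1
    (Γ := 3 * (γ' * K)) (fun y => S (b0 + y))
    (by
      intro a d ha hd _ hle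
      rw [apSum_shift]
      apply hAP _ _ (by omega) hd
      push_cast at hle ⊢
      linarith only [hle, hb0M])
    (by
      rw [apSum_shift, add_zero, h3K]
      have g1 := hgood (k + j - 1) (by omega) (by omega) (hE1 _ hjp)
      have g2 := hgood (k + j) (by omega) (by omega) (hE0 _ hjp)
      have g3 := hgood (k + j + 1) (by omega) (by omega) (hE2 _ hjp)
      push_cast
      linarith only [g1, g2, g3])
    (by
      have hℓr : (1 : ℝ) ≤ ℓ := by exact_mod_cast hℓ
      have hQr : (Q : ℝ) = 1280 * q ^ 3 * ℓ := by rw [hQ]; push_cast; ring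
      have hrr' : (r : ℝ) = 16 * q * ℓ * Q := by rw [hr]; push_cast; ring
      have e1 : 4 * q * (3 * (γ' * K)) = r := by rw [hγ', hKr]; field_simp; ring
      have e2 : 4 * q * (4 * ℓ * Q : ℝ) = r := by rw [hrr']; ring
      have e3 : 4 * q * (2 * Real.pi * (ℓ / Q) * (3 * K : ℕ)) = (3 / 10 * Real.pi) * r := by
        push_cast
        rw [hKr, hQr]; field_simp; ring
      rw [mul_add, mul_add, e1, e2, e3]
      linarith only [mul_le_mul_of_nonneg_right Real.pi_lt_four.le hr0, hrr])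
    ((W k).filter (fun x => t ≤ h (k * K + x)))
    ((W (k - j)).filter (fun x => ¬ t < h ((k - j) * K + x)))
    ((Ico (0 : ℤ) (3 * K : ℕ)).filter (fun y => S (b0 + y) ∧ t < h (b0 + y)))
    (fun ρ hρ => by
      have := hWm _ _ (mem_filter.1 hρ).1
      exact ⟨this.1, this.2.1⟩)
    hRc
    (fun ρ hρ => by
      have := hWm _ _ (mem_filter.1 hρ).1
      exact ⟨this.1, this.2.1⟩)
    (by
      have h1 := card_filter_add_card_filter_not (s := W (k - j))
        (fun x => t < h ((k - j) * K + x))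
      have h2 := hall (k - j) (mem_Ico.2 ⟨by omega, by omega⟩)
      have h3 := hgood (k - j) (by omega) (by omega) (hE0 _ hjm)
      rw [← hWc, ← h1] at h3
      have h4 : (((W (k - j)).filter (fun x => t < h ((k - j) * K + x))).card : ℝ) ≤ r := by
        exact_mod_cast h2.le
      push_cast at h3
      linarith only [h3, h4, hbig])
    (by
      have h1 := apSum_eq_card (fun z => S z ∧ t < h z) b0 (3 * K)
      rw [h3K] at h1
      have g1 := hbadw (k + j - 1) (by omega) (by omega)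
      have g2 := hbadw (k + j) (by omega) (by omega)
      have g3 := hbadw (k + j + 1) (by omega) (by omega)
      have h2 : (((Ico (0 : ℤ) (3 * K : ℕ)).filter
          (fun y => S (b0 + y) ∧ t < h (b0 + y))).card : ℝ) ≤ 3 * r := by
        have h3 := h1.symm.le.trans (by linarith only [g1, g2, g3] : _ ≤ 3 * (r : ℝ))
        refine le_trans (Nat.cast_le.2 (card_le_card ?_)) h3
        intro y
        simp only [mem_filter]
        exact id
      exact_mod_cast h2)
  obtain ⟨hρW, hρt⟩ := mem_filter.1 hρ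
  obtain ⟨hρ0, hρK, hρS⟩ := hWm _ _ hρW
  obtain ⟨hxW, hxt⟩ := mem_filter.1 hx
  obtain ⟨hx0, hxK, hxS⟩ := hWm _ _ hxW
  have hyt' : h (b0 + (2 * ρ - x + K)) ≤ t := by
    by_contra hc
    push Not at hc
    exact hBad (mem_filter.2 ⟨mem_Ico.2 ⟨by omega, by push_cast; omega⟩, hB, hc⟩)
  push Not at hxt
  have hjK : (2 : ℤ) * K ≤ j * K := mul_le_mul_of_nonneg_right (by omega) hKz.le
  have hconv := hS (k * K + ρ) ((k - j) * K + x) (b0 + (2 * ρ - x + K)) hρS
    (hpos _ _ (by omega) (by omega) hx0 hxK).1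
    (by rw [hb0]; linarith only [mul_nonneg hk.1 hKz.le, hjK, hρ0, hxK, hKz]) (by rw [hb0]; ring)
  have hρ0r : (0 : ℝ) ≤ ρ := by exact_mod_cast hρ0
  have hρKr : (ρ : ℝ) ≤ K := by exact_mod_cast hρK.le
  have hx0r : (0 : ℝ) ≤ x := by exact_mod_cast hx0
  have hxKr : (x : ℝ) ≤ K := by exact_mod_cast hxK.le
  have hpot := pot_second E (K := K) hK0 (M / 2) k j hj2
    (n := ((k * K + ρ : ℤ) : ℝ)) (i := j * K + ρ - x)
    (by push_cast; linarith only [hρ0r]) (by push_cast; linarith only [hρKr])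
    (by linarith only [hρ0r, hρKr, hx0r, hxKr]) (by linarith only [hρ0r, hρKr, hx0r, hxKr]) hjall
  have e1 : ((k * K + ρ : ℤ) : ℝ) + (j * K + ρ - x) = ((b0 + (2 * ρ - x + K) : ℤ) : ℝ) := by
    rw [hb0]; push_cast; ring
  have e2 : ((k * K + ρ : ℤ) : ℝ) - (j * K + ρ - x) = (((k - j) * K + x : ℤ) : ℝ) := by
    push_cast; ring
  rw [e1, e2] at hpot
  have h4 := mul_le_mul_of_nonneg_left hpot hκpos.le
  have h5 : κ * (200 * (K : ℝ) ^ 2) = 1 / 2 := by rw [hκ]; field_simp; ring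
  have e3 : ((b0 + (2 * ρ - x + K) : ℤ) : ℝ) + (((k - j) * K + x : ℤ) : ℝ) =
      2 * ((k * K + ρ : ℤ) : ℝ) := by linarith only [e1, e2]
  simp only [h] at hρt hxt hyt'
  have e4 : s * ((b0 + (2 * ρ - x + K) : ℤ) : ℝ) + s * (((k - j) * K + x : ℤ) : ℝ) =
      2 * (s * ((k * K + ρ : ℤ) : ℝ)) := by rw [← mul_add, e3]; ring
  linarith only [hρt, hxt, hyt', e4, h4, h5, hconv]

end Pool.Agent.Lib.MP_43444d_nt
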