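import Mathlib
import Pool.Agent.Lib.MP_43444d_nt.StepA

set_option autoImplicit false

namespace Pool.Agent.Lib.MP_43444d_nt

open Finset

theorem const_le_pow {T : ℕ} (hT : 2 ≤ T) (c : ℕ) : c ≤ T ^ c :=
  (Nat.lt_two_pow_self.le).trans (Nat.pow_le_pow_left hT c)

theorem claimA (q : ℕ) (hq : 1 ≤ q) (s : ℕ) : ∃ C : ℕ, ∀ T : ℕ, 2 ≤ T → ∃ ℓ : ℕ, 1 ≤ ℓ ∧
    ℓ ≤ T ^ C ∧ ∀ (S : ℤ → Prop) (F : ℤ → ℝ), MidConv S F →
      max (1 / (q : ℝ)) (1 - s * (1 / (115200 * (q : ℝ) ^ 3))) * ℓ < apSum S 0 1 ℓ →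
      Defect S F ℓ T := by
  have hqr : (1 : ℝ) ≤ q := by exact_mod_cast hq
  induction s with
  | zero =>
    refine ⟨0, fun T _ => ⟨1, le_rfl, by simp, fun S F _ h => ?_⟩⟩
    have h1 := apSum_le S 0 1 1
    have h2 := le_max_right (1 / (q : ℝ)) (1 - (0 : ℕ) * (1 / (115200 * (q : ℝ) ^ 3)))
    simp only [Nat.cast_zero, zero_mul, sub_zero, Nat.cast_one, mul_one] at h h1 h2
    linarith
  | succ s ih =>
    obtain ⟨C, hC⟩ := ih
    refine ⟨30000 * (327680 * q ^ 6) ^ 2 + 4 * C + 1, fun T hT => ?_⟩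
    obtain ⟨ℓ, hℓ1, hℓC, hℓ⟩ := hC T hT
    set Q := 1280 * q ^ 3 * ℓ with hQ
    set r := 16 * q * ℓ * Q with hr
    set K := 16 * q ^ 2 * r with hK
    set m := 30000 * K * T with hm
    have hM : m * K = 30000 * (327680 * q ^ 6) ^ 2 * ℓ ^ 4 * T := by
      rw [hm, hK, hr, hQ]; ring
    refine ⟨m * K, ?_, ?_, fun S F hS hden => ?_⟩
    · rw [hM]; exact Nat.succ_le_of_lt (by positivity)
    · rw [hM, pow_succ T, pow_add T, mul_comm 4 C, pow_mul T C 4]
      exact Nat.mul_le_mul_right _ (Nat.mul_le_mul (const_le_pow hT _) (Nat.pow_le_pow_left hℓC 4))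
    · by_contra hcon
      set γ : ℝ := 1 / (115200 * (q : ℝ) ^ 3) with hγ
      have hγ0 : 0 < γ := by positivity
      refine hcon (stepA hq hℓ1 (by omega) hQ hr hK hm (β := max (1 / (q : ℝ)) (1 - s * γ))
        (le_max_left _ _) (max_le ?_ ?_) hS ?_ ?_)
      · rw [div_le_one (by linarith)]; exact hqr
      · have : 0 ≤ s * γ := by positivity
        linarith
      · intro a d ha hd hle
        by_contra hlt
        push Not at hlt
        rw [← apSum_comp] at hlt
        exact hcon (Defect.of_comp ha hd hle (hℓ _ _ (hS.comp ha hd) hlt))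
      · refine le_trans (mul_le_mul_of_nonneg_right ?_ (Nat.cast_nonneg _)) hden.le
        rw [← hγ, sub_le_iff_le_add]
        apply max_le
        · linarith [le_max_left (1 / (q : ℝ)) (1 - ((s + 1 : ℕ) : ℝ) * γ)]
        · have := le_max_right (1 / (q : ℝ)) (1 - ((s + 1 : ℕ) : ℝ) * γ)
          push_cast at this ⊢
          linarith

theorem lemmaA (q : ℕ) (hq : 1 ≤ q) : ∃ C : ℕ, ∀ T : ℕ, 2 ≤ T → ∃ ℓ : ℕ, 1 ≤ ℓ ∧
    ℓ ≤ T ^ C ∧ ∀ (S : ℤ → Prop) (F : ℤ → ℝ), MidConv S F →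
      1 / (q : ℝ) * ℓ < apSum S 0 1 ℓ → Defect S F ℓ T := by
  obtain ⟨C, hC⟩ := claimA q hq (115200 * q ^ 3)
  refine ⟨C, fun T hT => ?_⟩
  obtain ⟨ℓ, h1, h2, h3⟩ := hC T hT
  refine ⟨ℓ, h1, h2, fun S F hS h => h3 S F hS ?_⟩
  have hqr : (1 : ℝ) ≤ q := by exact_mod_cast hq
  have : (1 : ℝ) - ((115200 * q ^ 3 : ℕ) : ℝ) * (1 / (115200 * (q : ℝ) ^ 3)) = 0 := by
    push_cast; field_simp; ring
  rw [this, max_eq_left (by positivity)]
  exact h

theorem stepB {p L R W0 m : ℕ} (hp : 1 ≤ p) (hL : 1 ≤ L) (hR : 1 ≤ R) (hW0 : 1 ≤ W0)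
    (hA : ∀ (S : ℤ → Prop) (F : ℤ → ℝ), MidConv S F →
      1 / ((1600 * p : ℕ) : ℝ) * W0 < apSum S 0 1 W0 → Defect S F W0 (200 * L * R : ℕ))
    (hm : m = 30000 * L * R * W0 * W0) {β : ℝ} (hβ0 : 1 / (p : ℝ) ≤ β)
    {S : ℤ → Prop} {F : ℤ → ℝ} (hS : MidConv S F) (hmono : ∀ x y, 0 ≤ x → x ≤ y → F x ≤ F y)
    (hwin : ∀ k : ℕ, k < m →
      apSum S ((k : ℤ) * R) 1 R - (F ((k + 1) * R) - F (k * R)) / L ≤ β * R)
    (hden : (β - 1 / (800 * (p : ℝ))) * (m * R : ℕ) ≤
      apSum S 0 1 (m * R) - (F (m * R : ℕ) - F 0) / L) : False := by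
  classical
  have hpr : (1 : ℝ) ≤ p := by exact_mod_cast hp
  have hLr : (1 : ℝ) ≤ L := by exact_mod_cast hL
  have hRr : (1 : ℝ) ≤ R := by exact_mod_cast hR
  have hW0r : (1 : ℝ) ≤ W0 := by exact_mod_cast hW0
  have hRz : (0 : ℤ) < R := by exact_mod_cast hR
  have hmr : (m : ℝ) = 30000 * L * R * W0 * W0 := by rw [hm]; push_cast; ring
  have hLR1 : (1 : ℝ) ≤ L * R := one_le_mul_of_one_le_of_one_le hLr hRr
  have hWW1 : (1 : ℝ) ≤ W0 * W0 := one_le_mul_of_one_le_of_one_le hW0r hW0r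
  have hmLR : 30000 * ((L : ℝ) * R) ≤ m := by
    rw [hmr]; linarith only [mul_le_mul_of_nonneg_left hWW1 (zero_le_one.trans hLR1)]
  have hmWW : 30000 * ((W0 : ℝ) * W0) ≤ m := by
    rw [hmr]; linarith only [mul_le_mul_of_nonneg_left hLR1 (zero_le_one.trans hWW1)]
  have hmr1 : (30000 : ℝ) ≤ m := by linarith
  have hm1 : 30000 ≤ m := by exact_mod_cast hmr1
  have hR0 : (0 : ℝ) ≤ R := Nat.cast_nonneg R
  set M : ℝ := m * R with hM
  have hM1 : (m : ℝ) ≤ M := le_mul_of_one_le_right (Nat.cast_nonneg m) hRr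
  have hM0 : 0 < M := by linarith
  have hMc : (((m * R : ℕ) : ℤ) : ℝ) = M := by rw [hM]; push_cast; ring
  have hMc' : ((m * R : ℕ) : ℝ) = M := by rw [hM]; push_cast; ring
  set T : ℝ := ((200 * L * R : ℕ) : ℝ) with hT
  have hT' : T = 200 * (L * R) := by rw [hT]; push_cast; ring
  have hFM : F (m * R : ℕ) - F 0 ≤ L * M := by
    have h1 := apSum_le S 0 1 (m * R)
    have h2 : 0 ≤ (β - 1 / (800 * (p : ℝ))) * (m * R : ℕ) := by
      apply mul_nonneg _ (Nat.cast_nonneg _)
      have : 1 / (800 * (p : ℝ)) ≤ 1 / p := one_div_le_one_div_of_le (by linarith) (by linarith)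
      linarith
    rw [hMc'] at h1
    have h3 : (F (m * R : ℕ) - F 0) / L ≤ M := by linarith
    rw [div_le_iff₀ (by linarith)] at h3
    linarith
  let B : ℤ → Prop := fun n => S n ∧ ¬ ∃ a b : ℤ, 0 ≤ a ∧ a < n ∧ n < b ∧ b < (m * R : ℕ) ∧
    S a ∧ S b ∧ b - a ≤ W0 ∧ ((b : ℝ) - a) * (F n + T) ≤ ((b : ℝ) - n) * F a + ((n : ℝ) - a) * F b
  have hBS : MidConv B F := fun n a b hn => hS n a b hn.1
  have hBsum : apSum B 0 1 (m * R) ≤ 1 / (1600 * (p : ℝ)) * M := by
    have h1 : m * R = (30000 * L * R * W0 * R) * W0 := by rw [hm]; ring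
    set u := 30000 * L * R * W0 * R
    have h2 := apSum_blocks B 0 u W0
    rw [← h1] at h2
    rw [h2]
    calc _ ≤ ∑ _v ∈ range u, 1 / ((1600 * p : ℕ) : ℝ) * W0 := by
          refine sum_le_sum fun v hv => ?_
          by_contra hlt
          push Not at hlt
          rw [zero_add, ← apSum_comp] at hlt
          have hv0 : (0 : ℤ) ≤ v * W0 := by positivity
          obtain ⟨x, n, y, hx, hxn, hny, hy, sx, sn, sy, hh⟩ :=
            hA _ _ (hBS.comp hv0 one_pos) hlt
          have h3 : (v + 1) * W0 ≤ m * R := by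
            rw [h1]; exact Nat.mul_le_mul_right _ (mem_range.1 hv)
          have h4 : ((v : ℤ) + 1) * W0 ≤ (m * R : ℕ) := by exact_mod_cast h3
          refine sn.2 ⟨v * W0 + 1 * x, v * W0 + 1 * y, by omega, by omega, by omega,
            by linarith, sx.1, sy.1, by omega, ?_⟩
          push_cast
          linarith
      _ = _ := by
          rw [sum_const, card_range, nsmul_eq_mul, ← hMc', h1]
          push_cast; ring
  set Bad1 : Finset ℤ := (Ico (0 : ℤ) m).filter
    (fun k => apSum S (k * R) 1 R - (F ((k + 1) * R) - F (k * R)) / L <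
      β * R - 1 / (2 * p) * R) with hBad1
  set Bad2 : Finset ℤ := (Ico (0 : ℤ) m).filter
    (fun k => -apSum B (k * R) 1 R < 0 - 1 / (4 * p) * R) with hBad2
  have hBad1c : (Bad1.card : ℝ) ≤ m / 400 := by
    have h1 := card_bad_le (m := m)
      (fun k => apSum S (k * R) 1 R - (F ((k + 1) * R) - F (k * R)) / L) (B := β * R)
      (g := 1 / (800 * (p : ℝ)) * R) (g' := 1 / (2 * p) * R) hwin (by
        rw [apSum_blocks] at hden
        simp only [zero_add] at hden
        rw [sum_sub_distrib, ← sum_div]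
        have h2 := sum_range_sub (fun k : ℕ => F ((k : ℤ) * R)) m
        simp only [Nat.cast_add, Nat.cast_one, Nat.cast_zero, zero_mul] at h2
        rw [h2]
        push_cast at hden
        linarith)
    rw [← hBad1] at h1
    have h2 : 1 / (800 * (p : ℝ)) * R * m = m / 400 * (1 / (2 * p) * R) := by
      field_simp; ring
    rw [h2] at h1
    exact le_of_mul_le_mul_right h1 (by positivity)
  have hBad2c : (Bad2.card : ℝ) ≤ m / 400 := by
    have h1 := card_bad_le (m := m) (fun k => -apSum B (k * R) 1 R) (B := 0)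
      (g := 1 / (1600 * (p : ℝ)) * R) (g' := 1 / (4 * p) * R)
      (fun k _ => neg_nonpos.2 (apSum_nonneg _ _ _ _)) (by
        rw [apSum_blocks] at hBsum
        simp only [zero_add] at hBsum
        rw [sum_neg_distrib]
        rw [hM] at hBsum
        linarith)
    rw [← hBad2] at h1
    have h2 : 1 / (1600 * (p : ℝ)) * R * m = m / 400 * (1 / (4 * p) * R) := by
      field_simp; ring
    rw [h2] at h1
    exact le_of_mul_le_mul_right h1 (by positivity)
  set E : Finset ℤ := Bad1 ∪ Bad2 with hE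
  have hEc : (E.card : ℝ) ≤ m / 200 := by
    have h2 : (E.card : ℝ) ≤ Bad1.card + Bad2.card := by exact_mod_cast card_union_le _ _
    linarith
  have hEc' : 200 * E.card ≤ m := by
    have : (200 * E.card : ℝ) ≤ m := by linarith
    exact_mod_cast this
  have hEK : E.card * (R : ℝ) ≤ M / 200 := by
    rw [hM]; linarith only [mul_le_mul_of_nonneg_right hEc hR0]
  have hgood : ∀ k : ℤ, 0 ≤ k → k < m → k ∉ E → F ((k + 1) * R) - F (k * R) ≤ L * R ∧
      ∃ x : ℤ, 0 ≤ x ∧ x < R ∧ S (k * R + x) ∧ ¬ B (k * R + x) := by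
    intro k h0 h1 h2
    have g1 : β * R - 1 / (2 * p) * R ≤
        apSum S (k * R) 1 R - (F ((k + 1) * R) - F (k * R)) / L := by
      by_contra h3
      exact h2 (mem_union_left _ (mem_filter.2 ⟨mem_Ico.2 ⟨h0, h1⟩, not_le.1 h3⟩))
    have g2 : 0 - 1 / (4 * p) * R ≤ -apSum B (k * R) 1 R := by
      by_contra h3
      exact h2 (mem_union_right _ (mem_filter.2 ⟨mem_Ico.2 ⟨h0, h1⟩, not_le.1 h3⟩))
    have g3 : 1 / (p : ℝ) * R ≤ β * R := mul_le_mul_of_nonneg_right hβ0 hR0
    have g4 : 1 / (p : ℝ) * R = 4 * (1 / (4 * p) * R) := by field_simp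
    have g5 : 1 / (2 * (p : ℝ)) * R = 2 * (1 / (4 * p) * R) := by field_simp; ring
    have g6 : 0 < 1 / (4 * (p : ℝ)) * R := by positivity
    have g7 : 0 ≤ (F ((k + 1) * R) - F (k * R)) / L :=
      div_nonneg (sub_nonneg.2 (hmono _ _ (by positivity) (by linarith only [hRz])))
        (Nat.cast_nonneg L)
    constructor
    · have := apSum_le S (k * R) 1 R
      have h3 : (F ((k + 1) * R) - F (k * R)) / L ≤ R := by
        linarith only [this, g1, g3, g4, g5, g6]
      rw [div_le_iff₀ (zero_lt_one.trans_le hLr)] at h3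
      linarith only [h3]
    · by_contra hc
      push Not at hc
      have : apSum S (k * R) 1 R ≤ apSum B (k * R) 1 R := by
        refine sum_le_sum fun x hx => ?_
        rw [one_mul]
        by_cases hx' : S (k * R + x)
        · rw [ind_of S hx', ind_of B (hc x (by omega) (by exact_mod_cast mem_range.1 hx) hx')]
        · rw [ind_of_not S hx']; exact ind_nonneg _ _
      linarith only [this, g1, g2, g3, g4, g5, g6, g7]
  set κ : ℝ := 50 * L / M with hκ
  have hκpos : 0 < κ := by positivity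
  have hκM : κ * M = 50 * L := by rw [hκ]; field_simp
  let h : ℤ → ℝ := fun x => F x - κ * pot E R (M / 2) x
  let Dom : Finset ℤ := (Ico (0 : ℤ) (m * R : ℕ)).filter (fun x => S x ∨ x / R ∉ E)
  have hDom : ∀ x : ℤ, 0 ≤ x → x < (m * R : ℕ) → (S x ∨ x / R ∉ E) → x ∈ Dom :=
    fun x h1 h2 h3 => mem_filter.2 ⟨mem_Ico.2 ⟨h1, h2⟩, h3⟩
  obtain ⟨j0, _, hj0, hj0E, -, -⟩ := exists_jump E ((m / 2 : ℕ) : ℤ)
  set kc : ℤ := ((m / 2 : ℕ) : ℤ) + j0 with hkc
  have hkc0 : 0 ≤ kc := by omega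
  have hkcm : kc < m := by omega
  have hy0 : 0 ≤ kc * R := by positivity
  have hyD : kc * R ∈ Dom := hDom _ hy0 (by push_cast; exact mul_lt_mul_of_pos_right hkcm hRz)
    (Or.inr (by rwa [Int.mul_ediv_cancel _ hRz.ne']))
  obtain ⟨n, hnD, hmax⟩ := exists_max_image Dom h ⟨_, hyD⟩
  obtain ⟨hn, hnS⟩ := mem_filter.1 hnD
  obtain ⟨hn0, hnM⟩ := mem_Ico.1 hn
  have hn0r : (0 : ℝ) ≤ n := by exact_mod_cast hn0
  have hnMr : (n : ℝ) ≤ M := by rw [← hMc]; exact_mod_cast hnM.le
  have hnear : |(n : ℝ) - M / 2| < M / 4 := by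
    by_contra hfar
    push Not at hfar
    have hcen : |((kc * R : ℤ) : ℝ) - M / 2| ≤ M / 100 := by
      have h1 : (m : ℝ) ≤ 2 * kc + 1 := by
        have : (m : ℤ) ≤ 2 * kc + 1 := by omega
        exact_mod_cast this
      have h2 : 200 * (kc : ℝ) ≤ 101 * m + 400 := by
        have : 200 * kc ≤ 101 * (m : ℤ) + 400 := by omega
        exact_mod_cast this
      push_cast
      rw [abs_le, hM]
      constructor <;> linarith only [mul_le_mul_of_nonneg_right h1 hR0,
        mul_le_mul_of_nonneg_right h2 hR0, mul_le_mul_of_nonneg_right hmr1 hR0, hR0]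
    have h1 := pot_far E hR0 hEK hn0r hnMr hfar hcen
    have h2 := hmax _ hyD
    simp only [h] at h2
    have h3 := hmono _ _ hn0 hnM.le
    have h4 := hmono _ _ le_rfl hy0
    have h5 := mul_le_mul_of_nonneg_left h1 hκpos.le
    have h6 : κ * (M ^ 2 / 25) = 2 * (L * M) := by rw [hκ]; field_simp; ring
    have h7 : 0 < L * M := by positivity
    linarith only [h2, h3, h4, h5, h6, h7, hFM]
  set k : ℤ := n / R with hk
  have hk1 : k * R ≤ n := Int.ediv_mul_le n hRz.ne'
  have hk2 : n < (k + 1) * R := Int.lt_ediv_add_one_mul_self n hRz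
  have hk1r : (k : ℝ) * R ≤ n := by exact_mod_cast hk1
  have hk2r : (n : ℝ) ≤ (k + 1) * R := by exact_mod_cast hk2.le
  have hmid : (m : ℤ) ≤ 4 * k + 4 ∧ 4 * k ≤ 3 * m := by
    rw [abs_lt, hM] at hnear
    have hKr0 : (0 : ℝ) < R := zero_lt_one.trans_le hRr
    constructor
    · have : (m : ℝ) * R ≤ (4 * k + 4) * R := by linarith only [hnear.1, hk2r]
      have := le_of_mul_le_mul_right this hKr0
      exact_mod_cast this
    · have : (4 * k : ℝ) * R ≤ (3 * m) * R := by linarith only [hnear.2, hk1r]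
      have := le_of_mul_le_mul_right this hKr0
      exact_mod_cast this
  by_cases hkE : k ∈ E
  · have hnS' : S n := hnS.resolve_right (not_not.2 hkE)
    obtain ⟨j, hj2, hjE, hjp, hjm, hjall⟩ := exists_jump E k
    have hjR : (2 : ℤ) * R ≤ j * R := mul_le_mul_of_nonneg_right (by omega) hRz.le
    have ha0 : 0 ≤ n - j * R := by
      have : j * (R : ℤ) ≤ k * R := mul_le_mul_of_nonneg_right (by omega) hRz.le
      omega
    have hbM : n + j * R < (m * R : ℕ) := by
      have : (k + 1 + j) * (R : ℤ) ≤ m * R := mul_le_mul_of_nonneg_right (by omega) hRz.le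
      push_cast
      linarith only [this, hk2]
    have hb := hmax (n + j * R) (hDom _ (by omega) hbM
      (Or.inr (by rwa [Int.add_mul_ediv_right _ _ hRz.ne'])))
    have ha := hmax (n - j * R) (hDom _ ha0 (by omega)
      (Or.inr (by
        rw [show n - j * R = n + (-j) * R by ring, Int.add_mul_ediv_right _ _ hRz.ne']
        exact hjm)))
    have hconv := hS n (n - j * R) (n + j * R) hnS' ha0 (by omega) (by ring)
    have hpot := pot_second E (K := R) hR0 (M / 2) k j hj2 (n := n) (i := j * R)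
      hk1r hk2r (by linarith only [hR0]) (by linarith only [hR0]) hjall
    simp only [h] at ha hb
    push_cast at ha hb
    have h4 := mul_le_mul_of_nonneg_left hpot hκpos.le
    have h5 : κ * (200 * (R : ℝ) ^ 2) < 1 := by
      rw [hκ, div_mul_eq_mul_div, div_lt_one hM0, hM]
      linarith only [mul_le_mul_of_nonneg_right hmLR hR0, mul_le_mul_of_nonneg_right hLR1 hR0,
        hRr]
    linarith only [ha, hb, hconv, h4, h5]
  · obtain ⟨hF, x, hx0, hxR, hxS, hxB⟩ := hgood k (by omega) (by omega) hkE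
    obtain ⟨a, b, ha0, hag, hgb, hbM, sa, sb, hab, hch⟩ : ∃ a b : ℤ, 0 ≤ a ∧ a < k * R + x ∧
        k * R + x < b ∧ b < (m * R : ℕ) ∧ S a ∧ S b ∧ b - a ≤ W0 ∧
        ((b : ℝ) - a) * (F (k * R + x) + T) ≤
          ((b : ℝ) - (k * R + x : ℤ)) * F a + (((k * R + x : ℤ) : ℝ) - a) * F b := by
      by_contra hc
      exact hxB ⟨hxS, hc⟩
    set g : ℤ := k * R + x with hg
    have hk0 : 0 ≤ k * R := mul_nonneg (by omega) hRz.le
    have hFg : F n - L * R ≤ F g := by
      have h1 := hmono _ _ hk0 (by omega : k * R ≤ g)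
      have h2 := hmono _ _ hn0 hk2.le
      linarith only [h1, h2, hF]
    have hagr : (a : ℝ) < g := by exact_mod_cast hag
    have hgbr : (g : ℝ) < b := by exact_mod_cast hgb
    have habr : (b : ℝ) - a ≤ W0 := by exact_mod_cast hab
    have ha0r : (0 : ℝ) ≤ a := by exact_mod_cast ha0
    have hbMr : (b : ℝ) ≤ M := by rw [← hMc]; exact_mod_cast hbM.le
    have hng : |(n : ℝ) - g| ≤ R := by
      have : |n - g| ≤ R := by
        rw [abs_le]; constructor <;> linarith only [hg, hk1, hk2, hx0, hxR]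
      exact_mod_cast this
    have hpg : pot E R (M / 2) g - pot E R (M / 2) n ≤ 2 * (R * M) := by
      have h1 := pot_sub_ge E (K := R) hR0 (M / 2) n g
      have h2 : E.card * R * |(n : ℝ) - g| ≤ M / 200 * R :=
        mul_le_mul hEK hng (abs_nonneg _) (by linarith only [hM0])
      have h3 : ((g : ℝ) - M / 2) ^ 2 - (n - M / 2) ^ 2 ≤ R * M := by
        have h4 : ((g : ℝ) - M / 2) ^ 2 - (n - M / 2) ^ 2 = (n - g) * (M - n - g) := by ring
        rw [h4]
        refine (le_abs_self _).trans ?_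
        rw [abs_mul]
        refine mul_le_mul hng ?_ (abs_nonneg _) hR0
        rw [abs_le]; constructor <;> linarith only [hn0r, hnMr, ha0r, hagr, hgbr, hbMr]
      have h5 : 0 ≤ R * M := by positivity
      linarith only [h1, h2, h3, h5]
    have ha := hmax a (hDom _ ha0 (by omega) (Or.inl sa))
    have hb := hmax b (hDom _ (by omega) hbM (Or.inl sb))
    have hc := pot_chord E (K := R) hR0 (M / 2) hagr.le hgbr.le
    have hsq : ((g : ℝ) - a) * (b - g) ≤ W0 * W0 :=
      mul_le_mul (by linarith only [hgbr, habr]) (by linarith only [hagr, habr])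
        (sub_nonneg.2 hgbr.le) (Nat.cast_nonneg W0)
    have hκW : κ * (W0 * W0) ≤ L * R := by
      rw [hκ, div_mul_eq_mul_div, div_le_iff₀ hM0]
      have h1 : 50 * ((W0 : ℝ) * W0) ≤ R * M := by
        linarith only [le_mul_of_one_le_left hM0.le hRr, hM1, hmWW, hWW1]
      linarith only [mul_le_mul_of_nonneg_left h1 (Nat.cast_nonneg L)]
    have hhg : h n - 101 * (L * R) ≤ h g := by
      simp only [h]
      have h1 := mul_le_mul_of_nonneg_left hpg hκpos.le
      have h2 : κ * (2 * (R * M)) = 100 * (L * R) := by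
        rw [show κ * (2 * (R * M)) = 2 * R * (κ * M) by ring, hκM]; ring
      linarith only [h1, h2, hFg]
    have e1 : ((b : ℝ) - g) * h a ≤ (b - g) * h n :=
      mul_le_mul_of_nonneg_left ha (sub_nonneg.2 hgbr.le)
    have e2 : ((g : ℝ) - a) * h b ≤ (g - a) * h n :=
      mul_le_mul_of_nonneg_left hb (sub_nonneg.2 hagr.le)
    have hba : (0 : ℝ) < b - a := sub_pos.2 (hagr.trans hgbr)
    have e3 := mul_le_mul_of_nonneg_left hc hκpos.le
    have e4 : ((b : ℝ) - a) * (κ * ((g - a) * (b - g))) ≤ (b - a) * (L * R) :=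
      mul_le_mul_of_nonneg_left ((mul_le_mul_of_nonneg_left hsq hκpos.le).trans hκW) hba.le
    have e5 : ((b : ℝ) - a) * (h n - 101 * (L * R)) ≤ (b - a) * h g :=
      mul_le_mul_of_nonneg_left hhg hba.le
    have e6 : 0 < ((b : ℝ) - a) * (L * R) := mul_pos hba (zero_lt_one.trans_le hLR1)
    have e7 : ((b : ℝ) - a) * (h g + T - κ * ((g - a) * (b - g))) ≤
        (b - g) * h a + (g - a) * h b := by
      simp only [h]
      linarith only [hch, e3]
    rw [hT'] at e7
    linarith only [e1, e2, e4, e5, e6, e7]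

end Pool.Agent.Lib.MP_43444d_nt
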