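import Mathlib
import Pool.Agent.Lib.MP_43444d_nt.StepB

set_option autoImplicit false

namespace Pool.Agent.Lib.MP_43444d_nt

open Finset

theorem claimB (p : ℕ) (hp : 1 ≤ p) (s : ℕ) : ∃ C : ℕ, ∀ L : ℕ, 2 ≤ L → ∃ W : ℕ, 1 ≤ W ∧
    W ≤ L ^ C ∧ ∀ (S : ℤ → Prop) (F : ℤ → ℝ), MidConv S F →
      (∀ x y, 0 ≤ x → x ≤ y → F x ≤ F y) →
      apSum S 0 1 W - (F W - F 0) / L ≤ max (1 / (p : ℝ)) (1 - s * (1 / (800 * (p : ℝ)))) * W := by
  have hpr : (1 : ℝ) ≤ p := by exact_mod_cast hp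
  induction s with
  | zero =>
    refine ⟨0, fun L _ => ⟨1, le_rfl, by simp, fun S F _ hmono => ?_⟩⟩
    have h1 := apSum_le S 0 1 1
    have h2 := le_max_right (1 / (p : ℝ)) (1 - (0 : ℕ) * (1 / (800 * (p : ℝ))))
    have h3 : 0 ≤ (F (1 : ℕ) - F 0) / L :=
      div_nonneg (sub_nonneg.2 (hmono _ _ le_rfl (by norm_num))) (Nat.cast_nonneg _)
    simp only [Nat.cast_zero, zero_mul, sub_zero, Nat.cast_one, mul_one] at h1 h2 h3 ⊢
    linarith
  | succ s ih =>
    obtain ⟨C, hC⟩ := ih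
    obtain ⟨CA, hCA⟩ := lemmaA (1600 * p) (by omega)
    refine ⟨30000 + 1 + C + (200 + 1 + C) * CA + (200 + 1 + C) * CA + C, fun L hL => ?_⟩
    obtain ⟨R, hR1, hRC, hR⟩ := hC L hL
    obtain ⟨W0, hW1, hWC, hW⟩ := hCA (200 * L * R) (by nlinarith)
    have hT : 200 * L * R ≤ L ^ (200 + 1 + C) := by
      rw [pow_add L, pow_succ L]
      exact Nat.mul_le_mul (Nat.mul_le_mul_right _ (const_le_pow hL _)) hRC
    have hW0 : W0 ≤ L ^ ((200 + 1 + C) * CA) := by
      rw [pow_mul L]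
      exact hWC.trans (Nat.pow_le_pow_left hT _)
    set m := 30000 * L * R * W0 * W0 with hm
    refine ⟨m * R, Nat.succ_le_of_lt (by rw [hm]; positivity), ?_, fun S F hS hmono => ?_⟩
    · rw [hm, pow_add L, pow_add L, pow_add L, pow_add L, pow_succ L]
      exact Nat.mul_le_mul (Nat.mul_le_mul (Nat.mul_le_mul (Nat.mul_le_mul
        (Nat.mul_le_mul_right _ (const_le_pow hL _)) hRC) hW0) hW0) hRC
    · by_contra hcon
      push Not at hcon
      set γ : ℝ := 1 / (800 * (p : ℝ)) with hγ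
      have hγ0 : 0 < γ := by positivity
      refine stepB hp (by omega) hR1 hW1 hW hm (β := max (1 / (p : ℝ)) (1 - s * γ))
        (le_max_left _ _) hS hmono ?_ ?_
      · intro k _
        have hk0 : (0 : ℤ) ≤ k * R := by positivity
        have := hR _ _ (hS.comp hk0 one_pos) (fun x y hx hxy => hmono _ _ (by omega) (by omega))
        rw [apSum_comp] at this
        simp only [one_mul, add_zero] at this
        rwa [show ((k : ℤ) + 1) * R = k * R + R by ring]
      · refine le_trans (mul_le_mul_of_nonneg_right ?_ (Nat.cast_nonneg _)) hcon.le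
        rw [← hγ, sub_le_iff_le_add]
        apply max_le
        · linarith [le_max_left (1 / (p : ℝ)) (1 - ((s + 1 : ℕ) : ℝ) * γ)]
        · have := le_max_right (1 / (p : ℝ)) (1 - ((s + 1 : ℕ) : ℝ) * γ)
          push_cast at this ⊢
          linarith

/-- The combinatorial theorem: midpoint-convex points of a slowly growing monotone sequence
are sparse. -/
theorem theoremB (p : ℕ) (hp : 1 ≤ p) : ∃ C : ℕ, ∀ L : ℕ, 2 ≤ L → ∀ N : ℕ, L ^ C ≤ N →
    ∀ (S : ℤ → Prop) (F : ℤ → ℝ), MidConv S F → (∀ x y, 0 ≤ x → x ≤ y → F x ≤ F y) →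
      apSum S 0 1 N ≤ 2 * N / p + (F (2 * N : ℕ) - F 0) / L := by
  obtain ⟨C, hC⟩ := claimB p hp (800 * p)
  refine ⟨C, fun L hL N hN S F hS hmono => ?_⟩
  obtain ⟨W, hW1, hWC, hW⟩ := hC L hL
  have hpr : (1 : ℝ) ≤ p := by exact_mod_cast hp
  have hLr : (0 : ℝ) < L := by exact_mod_cast (by omega : 0 < L)
  have e0 : (1 : ℝ) - ((800 * p : ℕ) : ℝ) * (1 / (800 * (p : ℝ))) = 0 := by
    push_cast; field_simp; ring
  rw [e0, max_eq_left (by positivity)] at hW
  set u := N / W + 1 with hu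
  have h1 : N ≤ u * W := by
    rw [hu, mul_comm]; exact (Nat.lt_mul_div_succ N hW1).le
  have h2 : u * W ≤ 2 * N := by
    have := Nat.div_mul_le_self N W
    have h3 : W ≤ N := hWC.trans hN
    rw [hu, add_mul]; omega
  have h3 : apSum S 0 1 N ≤ apSum S 0 1 (u * W) := by
    obtain ⟨d, hd⟩ := Nat.exists_eq_add_of_le h1
    rw [hd, apSum_add]
    linarith [apSum_nonneg S (0 + N) 1 d]
  have h4 : ∀ v ∈ range u, apSum S (0 + v * W) 1 W ≤
      1 / (p : ℝ) * W + (F (((v + 1 : ℕ) : ℤ) * W) - F (v * W)) / L := by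
    intro v _
    have hk0 : (0 : ℤ) ≤ v * W := by positivity
    have := hW _ _ (hS.comp hk0 one_pos) (fun x y hx hxy => hmono _ _ (by omega) (by omega))
    rw [apSum_comp] at this
    simp only [one_mul, add_zero] at this
    rw [show (((v + 1 : ℕ) : ℤ)) * W = v * W + W by push_cast; ring, zero_add]
    linarith
  have h5 := sum_le_sum h4
  rw [← apSum_blocks, sum_add_distrib, ← sum_div,
    sum_range_sub (fun k : ℕ => F ((k : ℤ) * W)) u] at h5
  simp only [sum_const, card_range, nsmul_eq_mul, Nat.cast_zero, zero_mul] at h5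
  have h6 : F ((u : ℤ) * W) ≤ F (2 * N : ℕ) := hmono _ _ (by positivity) (by exact_mod_cast h2)
  have h7 : (u : ℝ) * W ≤ 2 * N := by exact_mod_cast h2
  have h8 : (u : ℝ) * (1 / p * W) ≤ 2 * N / p := by
    rw [show (u : ℝ) * (1 / p * W) = u * W / p by ring]
    exact div_le_div_of_nonneg_right h7 (by linarith)
  have h9 : (F ((u : ℤ) * W) - F 0) / L ≤ (F (2 * N : ℕ) - F 0) / L :=
    div_le_div_of_nonneg_right (by linarith) hLr.le
  linarith

theorem nth_prime_rpow_le {b : ℝ} (hb0 : 0 < b) (hb1 : b ≤ 1) (n : ℕ) :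
    ((Nat.nth Nat.Prime n : ℕ) : ℝ) ^ (1 - b) ≤ 2 / (b * Real.log 2) * (n + 2) := by
  set x := Nat.nth Nat.Prime n with hx
  have hxp : x.Prime := Nat.prime_nth_prime n
  have hx2 : (2 : ℝ) ≤ x := by exact_mod_cast hxp.two_le
  have hpi : Nat.primeCounting x = n + 1 := by
    have h1 := Nat.primeCounting'_nth_eq n
    unfold Nat.primeCounting Nat.primeCounting' at *
    rw [Nat.count_succ, if_pos hxp, h1]
  have h1 := Chebyshev.pi_ge x
  rw [hpi] at h1
  have hlog : 0 < Real.log x := Real.log_pos (by linarith)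
  have hlog2 : 0 < Real.log 2 := Real.log_pos one_lt_two
  rw [div_le_iff₀ hlog] at h1
  have h2 : Real.log x ≤ Real.log (x + 1) := Real.log_le_log (by linarith) (by linarith)
  have h3 : Real.log (x + 1) ≤ 2 * (x : ℝ) ^ b / b := by
    refine (Real.log_le_rpow_div (by linarith) hb0).trans
      (div_le_div_of_nonneg_right ?_ hb0.le)
    calc ((x : ℝ) + 1) ^ b ≤ (2 * x) ^ b := Real.rpow_le_rpow (by linarith) (by linarith) hb0.le
      _ = 2 ^ b * (x : ℝ) ^ b := Real.mul_rpow (by norm_num) (by linarith)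
      _ ≤ 2 * (x : ℝ) ^ b := by
          refine mul_le_mul_of_nonneg_right ?_ (by positivity)
          calc (2 : ℝ) ^ b ≤ 2 ^ (1 : ℝ) := Real.rpow_le_rpow_of_exponent_le one_le_two hb1
            _ = 2 := Real.rpow_one 2
  have h4 : (x : ℝ) = x ^ (1 - b) * x ^ b := by
    rw [← Real.rpow_add (by linarith)]; simp
  have h5 : (x : ℝ) * Real.log 2 ≤ (n + 2) * (2 * (x : ℝ) ^ b / b) := by
    push_cast at h1
    have hn : (0 : ℝ) ≤ n := Nat.cast_nonneg n
    have h6 : ((n : ℝ) + 1) * Real.log x ≤ (n + 1) * Real.log (x + 1) :=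
      mul_le_mul_of_nonneg_left h2 (by linarith)
    have h7 : ((n : ℝ) + 2) * Real.log (x + 1) ≤ (n + 2) * (2 * (x : ℝ) ^ b / b) :=
      mul_le_mul_of_nonneg_left h3 (by linarith)
    linarith
  have hxb : 0 < (x : ℝ) ^ b := by positivity
  refine le_of_mul_le_mul_right ?_ (mul_pos hxb hlog2)
  calc (x : ℝ) ^ (1 - b) * (x ^ b * Real.log 2) = x * Real.log 2 := by rw [← mul_assoc, ← h4]
    _ ≤ (n + 2) * (2 * (x : ℝ) ^ b / b) := h5
    _ = _ := by field_simp

theorem exists_scale (C : ℕ) {ε : ℝ} (hε : 0 < ε) : ∀ᶠ N : ℕ in Filter.atTop,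
    ∃ L : ℕ, 2 ≤ L ∧ L ^ C ≤ N ∧ ((Nat.nth Nat.Prime (2 * N) : ℕ) : ℝ) ≤ ε * L * N := by
  set a : ℝ := 1 / ((C : ℝ) + 1) with ha
  have ha0 : 0 < a := by positivity
  set b : ℝ := a / (2 * (1 + a)) with hb
  have hb0 : 0 < b := by positivity
  have hb1 : b ≤ 1 := by rw [hb, div_le_one (by positivity)]; linarith
  have hab : (1 + a) * (1 - b) = 1 + a / 2 := by rw [hb]; field_simp; ring
  set c : ℝ := 2 / (b * Real.log 2) with hc
  have hc0 : 0 < c := div_pos two_pos (mul_pos hb0 (Real.log_pos one_lt_two))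
  have t1 := (tendsto_rpow_atTop ha0).comp tendsto_natCast_atTop_atTop
  have t2 := (tendsto_rpow_atTop (half_pos ha0)).comp tendsto_natCast_atTop_atTop
  filter_upwards [t1.eventually_ge_atTop 2, t2.eventually_gt_atTop (4 * c / (ε / 2) ^ (1 - b)),
    Filter.eventually_ge_atTop 1] with N h1 h2 h3
  simp only [Function.comp] at h1 h2
  have hN : (1 : ℝ) ≤ N := by exact_mod_cast h3
  set L := ⌊(N : ℝ) ^ a⌋₊ with hL
  have hL2 : 2 ≤ L := Nat.le_floor (by exact_mod_cast h1)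
  have hL1 : (L : ℝ) ≤ (N : ℝ) ^ a := Nat.floor_le (by positivity)
  have hL3 : (N : ℝ) ^ a / 2 ≤ L := by
    have := Nat.lt_floor_add_one ((N : ℝ) ^ a)
    rw [← hL] at this
    linarith
  refine ⟨L, hL2, ?_, ?_⟩
  · have h4 : (L : ℝ) ^ C ≤ N := by
      calc (L : ℝ) ^ C ≤ ((N : ℝ) ^ a) ^ C := pow_le_pow_left₀ (Nat.cast_nonneg _) hL1 C
        _ = (N : ℝ) ^ (a * C) := by rw [Real.rpow_mul (by linarith), Real.rpow_natCast]
        _ ≤ (N : ℝ) ^ (1 : ℝ) := by
            apply Real.rpow_le_rpow_of_exponent_le hN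
            rw [ha, div_mul_eq_mul_div, div_le_one (by positivity)]; linarith
        _ = N := Real.rpow_one _
    exact_mod_cast h4
  · by_contra hcon
    push Not at hcon
    have h4 := nth_prime_rpow_le hb0 hb1 (2 * N)
    have h5 : ε / 2 * (N : ℝ) ^ (1 + a) ≤ ε * L * N := by
      rw [Real.rpow_add (by linarith), Real.rpow_one]
      have := mul_le_mul_of_nonneg_left hL3 (by positivity : 0 ≤ ε * N)
      linarith
    have h6 := Real.rpow_le_rpow (by positivity) (h5.trans hcon.le) (by linarith : 0 ≤ 1 - b)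
    rw [Real.mul_rpow (by positivity) (by positivity), ← Real.rpow_mul (by linarith), hab,
      Real.rpow_add (by linarith), Real.rpow_one] at h6
    rw [div_lt_iff₀ (by positivity)] at h2
    push_cast at h4
    rw [← hc] at h4
    have h7 := mul_lt_mul_of_pos_left h2 (by linarith : (0 : ℝ) < N)
    nlinarith

/-- The set of indices (counted from zero) of midpoint-convex primes. -/
def SP (x : ℤ) : Prop := 0 ≤ x ∧ ∀ i : ℕ, 1 ≤ i → i ≤ x.toNat →
  2 * Nat.nth Nat.Prime x.toNat <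
    Nat.nth Nat.Prime (x.toNat - i) + Nat.nth Nat.Prime (x.toNat + i)

theorem midConv_SP : MidConv SP (fun x => ((Nat.nth Nat.Prime x.toNat : ℕ) : ℝ)) := by
  intro n a b hn ha hab hsum
  have h := hn.2 (n - a).toNat (by omega) (by omega)
  have h0 := hn.1
  rw [show n.toNat - (n - a).toNat = a.toNat by omega,
    show n.toNat + (n - a).toNat = b.toNat by omega] at h
  have h2 : 2 * Nat.nth Nat.Prime n.toNat + 1 ≤
      Nat.nth Nat.Prime a.toNat + Nat.nth Nat.Prime b.toNat := h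
  beta_reduce
  exact_mod_cast h2

theorem main :
    Filter.Tendsto
      (fun N : ℕ =>
        ((Set.ncard {n : ℕ | 1 ≤ n ∧ n ≤ N ∧
            ∀ i : ℕ, 1 ≤ i → i ≤ n - 1 →
              2 * Nat.nth Nat.Prime (n - 1) <
                Nat.nth Nat.Prime (n - 1 - i) + Nat.nth Nat.Prime (n - 1 + i)} : ℕ) : ℝ)
          / (N : ℝ))
      Filter.atTop (nhds (0 : ℝ)) := by
  classical
  rw [Metric.tendsto_atTop']
  intro ε hε
  obtain ⟨p, hp⟩ := exists_nat_gt (8 / ε)
  have hp0 : (0 : ℝ) < p := lt_trans (by positivity) hp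
  have hp1 : 1 ≤ p := by exact_mod_cast hp0
  obtain ⟨C, hC⟩ := theoremB p hp1
  obtain ⟨N0, hN0⟩ := Filter.eventually_atTop.1 (exists_scale C (by positivity : 0 < ε / 4))
  refine ⟨N0, fun N hN => ?_⟩
  obtain ⟨L, hL2, hLC, hLP⟩ := hN0 N hN.le
  have hNr : (0 : ℝ) < N := by exact_mod_cast (by omega : 0 < N)
  have hLr : (0 : ℝ) < L := by exact_mod_cast (by omega : 0 < L)
  have h1 := hC L hL2 N hLC SP _ midConv_SP (fun x y _ hxy => by
    exact_mod_cast (Nat.nth_strictMono Nat.infinite_setOfPred_prime).monotone (by omega))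
  simp only [Int.toNat_natCast] at h1
  have h2 : ((Set.ncard {n : ℕ | 1 ≤ n ∧ n ≤ N ∧
            ∀ i : ℕ, 1 ≤ i → i ≤ n - 1 →
              2 * Nat.nth Nat.Prime (n - 1) <
                Nat.nth Nat.Prime (n - 1 - i) + Nat.nth Nat.Prime (n - 1 + i)} : ℕ) : ℝ) ≤
      apSum SP 0 1 N := by
    rw [apSum_eq_card, Nat.cast_le, ← Set.ncard_coe_finset]
    refine Set.ncard_le_ncard_of_injOn (fun n : ℕ => (n : ℤ) - 1) ?_ ?_ (Finset.finite_toSet _)
    · rintro n ⟨h1, h2, h3⟩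
      simp only [coe_filter, mem_Ico, Set.mem_ofPred_eq, zero_add]
      refine ⟨⟨by omega, by omega⟩, by omega, ?_⟩
      rw [show ((n : ℤ) - 1).toNat = n - 1 by omega]
      exact h3
    · intro a _ b _ h
      simp only at h
      omega
  rw [Real.dist_eq, sub_zero, abs_of_nonneg (by positivity), div_lt_iff₀ hNr]
  have h3 : (((Nat.nth Nat.Prime (2 * N) : ℕ) : ℝ) - (Nat.nth Nat.Prime (Int.toNat 0) : ℕ)) / L ≤
      ε / 4 * N := by
    rw [div_le_iff₀ hLr]
    have : (0 : ℝ) ≤ (Nat.nth Nat.Prime (Int.toNat 0) : ℕ) := Nat.cast_nonneg _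
    linarith
  have h4 : 2 * (N : ℝ) / p ≤ ε / 4 * N := by
    rw [div_le_iff₀ hp0]
    rw [div_lt_iff₀ hε] at hp
    nlinarith
  have h5 : 0 < ε * N := by positivity
  linarith

end Pool.Agent.Lib.MP_43444d_nt
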