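import Mathlib

/-! Increasing sequences of growth `n ^ (1 + 2 / k)` with many midpoint-convex indices. -/

set_option autoImplicit false

namespace Pool.Agent.Lib.MP_43444d_nt.Thr

open Finset Real

/-- Numbers all of whose digits are small. -/
theorem digits_set (D : ℕ) (hD : 1 ≤ D) (j : ℕ) : ∃ T : Finset ℕ, T.card = D ^ j ∧
    ∀ r ∈ T, r < (8 * D) ^ j ∧ ∀ t ≤ j, 8 * (r % (8 * D) ^ t) ≤ (8 * D) ^ t := by
  induction j with
  | zero =>
    refine ⟨{0}, by simp, fun r hr => ?_⟩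
    rw [mem_singleton.1 hr]
    exact ⟨by simp, fun t _ => by simp⟩
  | succ j ih =>
    obtain ⟨T, hc, hT⟩ := ih
    have hB : 0 < (8 * D) ^ j := by positivity
    refine ⟨(T ×ˢ range D).image fun x => x.1 + x.2 * (8 * D) ^ j, ?_, fun r hr => ?_⟩
    · rw [card_image_of_injOn, card_product, hc, card_range, pow_succ]
      rintro ⟨r, d⟩ h ⟨r', d'⟩ h' e
      have h1 := (hT r (mem_product.1 h).1).1
      have h2 := (hT r' (mem_product.1 h').1).1
      have e1 : r = r' := by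
        have := congrArg (· % (8 * D) ^ j) e
        simpa [Nat.mod_eq_of_lt h1, Nat.mod_eq_of_lt h2] using this
      subst e1
      have e2 : d = d' := Nat.eq_of_mul_eq_mul_right hB (Nat.add_left_cancel e)
      rw [e2]
    · obtain ⟨⟨s, d⟩, h, rfl⟩ := mem_image.1 hr
      obtain ⟨h1, h2⟩ := hT s (mem_product.1 h).1
      have hd : d + 1 ≤ D := mem_range.1 (mem_product.1 h).2
      have h3 : (d + 1) * (8 * D) ^ j ≤ D * (8 * D) ^ j := Nat.mul_le_mul_right _ hd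
      have h4 : 8 * (s + d * (8 * D) ^ j) < (8 * D) ^ (j + 1) := by
        rw [pow_succ]
        nlinarith
      dsimp only
      refine ⟨by omega, fun t ht => ?_⟩
      rcases Nat.lt_or_ge j t with h5 | h5
      · obtain rfl : t = j + 1 := by omega
        exact (Nat.mul_le_mul_left 8 (Nat.mod_le _ _)).trans h4.le
      · obtain ⟨c, hc⟩ : (8 * D) ^ t ∣ (8 * D) ^ j := pow_dvd_pow _ h5
        have := h2 t h5
        rw [hc, show s + d * ((8 * D) ^ t * c) = s + (8 * D) ^ t * (d * c) by ring,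
          Nat.add_mul_mod_self_left]
        exact this

theorem cos_mod (n M : ℕ) (hM : 0 < M) :
    cos (2 * π * n / M) = cos (2 * π * (n % M : ℕ) / M) := by
  have hM' : (M : ℝ) ≠ 0 := by positivity
  have e : (n : ℝ) = (n % M : ℕ) + M * (n / M : ℕ) := by exact_mod_cast (Nat.mod_add_div n M).symm
  rw [← cos_add_nat_mul_two_pi (2 * π * (n % M : ℕ) / M) (n / M)]
  congr 1
  rw [div_add' _ _ _ hM', div_left_inj' hM']
  nth_rewrite 1 [e]
  ring

theorem cos_ge {n M : ℕ} (hM : 0 < M) (h : 8 * (n % M) ≤ M) : 1 / 2 ≤ cos (2 * π * n / M) := by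
  rw [cos_mod n M hM]
  have hM' : (0 : ℝ) < M := by positivity
  have h1 : (8 : ℝ) * (n % M : ℕ) ≤ M := by exact_mod_cast h
  have h0 : (0 : ℝ) ≤ (n % M : ℕ) := by positivity
  have h2 : 2 * π * (n % M : ℕ) / M ≤ 1 := by
    rw [div_le_one hM']
    nlinarith [pi_le_four]
  have h3 : 0 ≤ 2 * π * (n % M : ℕ) / M := by positivity
  nlinarith [one_sub_sq_div_two_le_cos (x := 2 * π * (n % M : ℕ) / M)]

theorem cos_le {c B : ℕ} (hB : 0 < B) (h : ¬B ∣ c) : cos (2 * π * c / B) ≤ 1 - 8 / (B : ℝ) ^ 2 := by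
  have hB' : (0 : ℝ) < B := by positivity
  have key : ∀ r : ℕ, 1 ≤ r → 2 * r ≤ B → cos (2 * π * r / B) ≤ 1 - 8 / (B : ℝ) ^ 2 := by
    intro r h1 h2
    have h3 : (1 : ℝ) ≤ r := by exact_mod_cast h1
    have h4 : (2 : ℝ) * r ≤ B := by exact_mod_cast h2
    have h5 : |2 * π * r / B| ≤ π := by
      rw [abs_of_nonneg (by positivity), div_le_iff₀ hB']
      nlinarith [pi_pos]
    refine (cos_le_one_sub_mul_cos_sq h5).trans ?_
    have e : 2 / π ^ 2 * (2 * π * r / B) ^ 2 = 8 * r ^ 2 / (B : ℝ) ^ 2 := by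
      field_simp
      ring
    rw [e]
    gcongr
    nlinarith
  rw [cos_mod c B hB]
  have h1 : c % B ≠ 0 := fun h0 => h (Nat.dvd_of_mod_eq_zero h0)
  have h2 := Nat.mod_lt c hB
  rcases le_total (2 * (c % B)) B with h3 | h3
  · exact key _ (by omega) h3
  · rw [← cos_two_pi_sub]
    have e : 2 * π - 2 * π * (c % B : ℕ) / B = 2 * π * (B - c % B : ℕ) / B := by
      rw [Nat.cast_sub h2.le]
      field_simp
    rw [e]
    exact key _ (by omega) (by omega)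

/-- The oscillating part. -/
noncomputable def osc (k B n : ℕ) : ℝ :=
  (B : ℝ) ^ 2 * ∑ j ∈ range (k + 1), (1 - cos (2 * π * n / (B ^ (j + 1) : ℕ)))

theorem osc_nonneg (k B n : ℕ) : 0 ≤ osc k B n :=
  mul_nonneg (by positivity) (sum_nonneg fun _ _ => sub_nonneg.2 (cos_le_one _))

theorem osc_le (k B n : ℕ) : osc k B n ≤ (2 * (k + 1) * B ^ 2 : ℕ) := by
  have : ∑ j ∈ range (k + 1), (1 - cos (2 * π * n / (B ^ (j + 1) : ℕ))) ≤
      ∑ _j ∈ range (k + 1), (2 : ℝ) := sum_le_sum fun j _ => by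
    linarith [neg_one_le_cos (2 * π * n / (B ^ (j + 1) : ℕ))]
  rw [sum_const, card_range, nsmul_eq_mul] at this
  unfold osc
  push_cast at this ⊢
  nlinarith [sq_nonneg (B : ℝ)]

theorem osc_conv {k B u i : ℕ} (hB : 0 < B) (hi : ¬B ^ (k + 1) ∣ i)
    (hn : ∀ t ≤ k + 1, 8 * ((u + i) % B ^ t) ≤ B ^ t) :
    2 * osc k B (u + i) + 8 ≤ osc k B u + osc k B (u + i + i) := by
  classical
  have hB' : (0 : ℝ) < B := by positivity
  have ex : ∃ j, ¬B ^ (j + 1) ∣ i := ⟨k, hi⟩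
  have hj : Nat.find ex ≤ k := Nat.find_min' ex hi
  have hj1 := Nat.find_spec ex
  obtain ⟨c, hc⟩ : B ^ Nat.find ex ∣ i := by
    rcases Nat.eq_zero_or_pos (Nat.find ex) with h | h
    · rw [h, pow_zero]
      exact one_dvd _
    · have := Nat.find_min ex (Nat.sub_lt h one_pos)
      rwa [show Nat.find ex - 1 + 1 = Nat.find ex by omega, not_not] at this
  generalize Nat.find ex = j at *
  have hc1 : ¬B ∣ c := fun h => hj1 (by rw [hc, pow_succ]; exact Nat.mul_dvd_mul_left _ h)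
  have id : ∀ t : ℕ, (1 - cos (2 * π * u / (B ^ (t + 1) : ℕ))) +
      (1 - cos (2 * π * (u + i + i : ℕ) / (B ^ (t + 1) : ℕ))) -
      2 * (1 - cos (2 * π * (u + i : ℕ) / (B ^ (t + 1) : ℕ))) =
      2 * cos (2 * π * (u + i : ℕ) / (B ^ (t + 1) : ℕ)) *
        (1 - cos (2 * π * i / (B ^ (t + 1) : ℕ))) := by
    intro t
    have e1 : 2 * π * u / (B ^ (t + 1) : ℕ) = 2 * π * (u + i : ℕ) / (B ^ (t + 1) : ℕ) -
        2 * π * i / (B ^ (t + 1) : ℕ) := by push_cast; ring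
    have e2 : 2 * π * (u + i + i : ℕ) / (B ^ (t + 1) : ℕ) = 2 * π * (u + i : ℕ) / (B ^ (t + 1) : ℕ) +
        2 * π * i / (B ^ (t + 1) : ℕ) := by push_cast; ring
    rw [e1, e2, cos_sub, cos_add]
    ring
  have hcos : ∀ t ∈ range (k + 1), 1 / 2 ≤ cos (2 * π * (u + i : ℕ) / (B ^ (t + 1) : ℕ)) :=
    fun t ht => cos_ge (by positivity) (hn _ (by have := mem_range.1 ht; omega))
  have h1 := single_le_sum (f := fun t => 2 * cos (2 * π * (u + i : ℕ) / (B ^ (t + 1) : ℕ)) *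
    (1 - cos (2 * π * i / (B ^ (t + 1) : ℕ))))
    (fun t ht => mul_nonneg (by linarith [hcos t ht]) (sub_nonneg.2 (cos_le_one _)))
    (mem_range.2 (Nat.lt_succ_of_le hj))
  have e3 : 2 * π * i / (B ^ (j + 1) : ℕ) = 2 * π * c / B := by
    rw [hc]
    push_cast
    field_simp
    ring
  have h2 := cos_le hB hc1
  have h3 := hcos j (mem_range.2 (Nat.lt_succ_of_le hj))
  rw [sum_congr rfl fun t _ => (id t).symm, sum_sub_distrib, sum_add_distrib, ← mul_sum, e3] at h1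
  have h4 : 0 < 8 / (B : ℝ) ^ 2 := by positivity
  have h5 : (B : ℝ) ^ 2 * (8 / (B : ℝ) ^ 2) = 8 := by field_simp
  have h6 : 8 / (B : ℝ) ^ 2 ≤ 2 * cos (2 * π * (u + i : ℕ) / (B ^ (j + 1) : ℕ)) *
      (1 - cos (2 * π * c / B)) := by nlinarith
  have h7 := mul_le_mul_of_nonneg_left (h6.trans h1) (sq_nonneg (B : ℝ))
  unfold osc
  linarith

theorem sum_conv {s : ℕ → ℕ} (hs : Monotone s) (u i : ℕ) :
    2 * ∑ t ∈ range (u + (i + 1)), s t + s (u + (i + 1)) ≤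
      ∑ t ∈ range u, s t + ∑ t ∈ range (u + (i + 1) + (i + 1)), s t + s u := by
  rw [sum_range_add s (u + (i + 1)), sum_range_add s u, sum_range_succ' (fun x => s (u + x))]
  have h1 : ∑ x ∈ range i, s (u + (x + 1)) ≤ i * s (u + (i + 1)) := by
    have := sum_le_card_nsmul (range i) (fun x => s (u + (x + 1))) (s (u + (i + 1)))
      fun x hx => hs (by have := mem_range.1 hx; omega)
    simpa using this
  have h2 : (i + 1) * s (u + (i + 1)) ≤ ∑ x ∈ range (i + 1), s (u + (i + 1) + x) := by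
    have := card_nsmul_le_sum (range (i + 1)) (fun x => s (u + (i + 1) + x)) (s (u + (i + 1)))
      fun x _ => hs (by omega)
    simpa using this
  simp only [add_zero]
  nlinarith

/-- The slope. -/
def slope (k t : ℕ) : ℕ := 8 * (k + 1) * (2 ^ Nat.log (2 ^ k) t) ^ 2

/-- The sequence. -/
noncomputable def seq (k n : ℕ) : ℕ :=
  ∑ t ∈ range n, slope k t + ⌊osc k (2 ^ Nat.log (2 ^ k) n) n⌋₊

theorem slope_mono (k : ℕ) : Monotone (slope k) := fun _ _ h =>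
  Nat.mul_le_mul_left _ (Nat.pow_le_pow_left
    (Nat.pow_le_pow_right two_pos (Nat.log_mono_right h)) 2)

theorem floor_le (k n : ℕ) : 4 * ⌊osc k (2 ^ Nat.log (2 ^ k) n) n⌋₊ ≤ slope k n := by
  have := Nat.floor_le_of_le (osc_le k (2 ^ Nat.log (2 ^ k) n) n)
  unfold slope
  linarith

theorem slope_pos (k n : ℕ) : 0 < slope k n := by
  unfold slope
  positivity

theorem seq_mono (k : ℕ) : StrictMono (seq k) := strictMono_nat_of_lt_succ fun n => by
  have := floor_le k n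
  have := slope_pos k n
  unfold seq
  rw [sum_range_succ]
  omega

theorem seq_le {k n : ℕ} (hk : 0 < k) (hn : 1 ≤ n) :
    (seq k n : ℝ) ≤ 16 * (k + 1) * (n : ℝ) ^ (1 + 2 / (k : ℝ)) := by
  have h1 : ∑ t ∈ range n, slope k t ≤ n * slope k n := by
    simpa using sum_le_card_nsmul (range n) (slope k) (slope k n)
      fun x hx => slope_mono k (mem_range.1 hx).le
  have h2 : seq k n ≤ 2 * (n * slope k n) := by
    have := floor_le k n
    have := Nat.le_mul_of_pos_left (slope k n) hn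
    unfold seq
    omega
  have h3 : (2 ^ Nat.log (2 ^ k) n) ^ k ≤ n := by
    rw [← pow_mul, mul_comm, pow_mul]
    exact Nat.pow_log_le_self _ (by omega)
  have hn' : (0 : ℝ) < n := by positivity
  unfold slope at h2
  generalize 2 ^ Nat.log (2 ^ k) n = B at h2 h3
  have h4 : (B : ℝ) ^ 2 ≤ (n : ℝ) ^ (2 / (k : ℝ)) := by
    have h5 : ((B : ℝ) ^ k) ^ (2 / (k : ℝ)) ≤ (n : ℝ) ^ (2 / (k : ℝ)) :=
      rpow_le_rpow (by positivity) (by exact_mod_cast h3) (by positivity)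
    rwa [← rpow_natCast, ← rpow_mul (by positivity), mul_div_cancel₀ _ (by positivity),
      rpow_two] at h5
  have h6 : (seq k n : ℝ) ≤ 2 * (n * (8 * (k + 1) * (B : ℝ) ^ 2)) := by exact_mod_cast h2
  rw [rpow_add hn', rpow_one]
  have h7 := mul_le_mul_of_nonneg_left h4 (show (0 : ℝ) ≤ 16 * (k + 1) * n by positivity)
  linarith

theorem log_eq {k m n : ℕ} (h1 : (2 ^ m) ^ k ≤ n) (h2 : n < 2 ^ k * (2 ^ m) ^ k) :
    Nat.log (2 ^ k) n = m := by
  have e : (2 ^ m) ^ k = (2 ^ k) ^ m := by rw [← pow_mul, mul_comm, pow_mul]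
  rw [e] at h1 h2
  exact Nat.log_eq_of_pow_le_of_lt_pow h1 (by rwa [pow_succ'])

theorem seq_conv {k m n i : ℕ} (hk : 3 ≤ k) (hm : 1 ≤ m) (h1 : (2 ^ m) ^ k ≤ n)
    (h2 : n < 3 * (2 ^ m) ^ k) (hn : ∀ t ≤ k + 1, 8 * (n % (2 ^ m) ^ t) ≤ (2 ^ m) ^ t)
    (hi : 1 ≤ i) (hin : i ≤ n - 1) : 2 * seq k n < seq k (n - i) + seq k (n + i) := by
  obtain ⟨u, rfl⟩ : ∃ u, n = u + i := ⟨n - i, by omega⟩
  obtain ⟨i, rfl⟩ : ∃ j, i = j + 1 := ⟨i - 1, by omega⟩
  have hk8 : 8 * (2 ^ m) ^ k ≤ 2 ^ k * (2 ^ m) ^ k :=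
    Nat.mul_le_mul_right _ (Nat.pow_le_pow_right two_pos hk : 2 ^ 3 ≤ 2 ^ k)
  have l1 := log_eq h1 (by omega)
  have hs := sum_conv (slope_mono k) u i
  have hf := floor_le k (u + (i + 1))
  rw [Nat.add_sub_cancel]
  unfold seq
  rcases Nat.lt_or_ge u ((2 ^ m) ^ k) with h | h
  · have e : (2 ^ m) ^ k = (2 ^ k) ^ m := by rw [← pow_mul, mul_comm, pow_mul]
    have l2 : Nat.log (2 ^ k) u < m := Nat.log_lt_of_lt_pow (by omega) (e ▸ h)
    have h3 : 2 * 2 ^ Nat.log (2 ^ k) u ≤ 2 ^ m := by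
      rw [← pow_succ']
      exact Nat.pow_le_pow_right two_pos l2
    have h4 : 4 * slope k u ≤ slope k (u + (i + 1)) := by
      have := Nat.mul_le_mul_left (8 * (k + 1)) (Nat.pow_le_pow_left h3 2)
      unfold slope
      rw [l1]
      linarith
    have := slope_pos k u
    omega
  · have l2 := log_eq h (by omega)
    have l3 : Nat.log (2 ^ k) (u + (i + 1) + (i + 1)) = m := log_eq (by omega) (by omega)
    have h3 : 2 * (2 ^ m) ^ k ≤ (2 ^ m) ^ (k + 1) := by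
      rw [pow_succ']
      exact Nat.mul_le_mul_right _ (Nat.pow_le_pow_right two_pos hm : 2 ^ 1 ≤ 2 ^ m)
    have h4 := osc_conv (k := k) (u := u) (i := i + 1) (Nat.two_pow_pos m)
      (fun hd => by have := Nat.le_of_dvd (by omega) hd; omega) hn
    have h5 := slope_mono k (Nat.le_add_right u (i + 1))
    rw [l1, l2, l3]
    have a1 := Nat.floor_le (osc_nonneg k (2 ^ m) (u + (i + 1)))
    have a2 := Nat.lt_floor_add_one (osc k (2 ^ m) u)
    have a3 := Nat.lt_floor_add_one (osc k (2 ^ m) (u + (i + 1) + (i + 1)))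
    have a4 : 2 * ⌊osc k (2 ^ m) (u + (i + 1))⌋₊ <
        ⌊osc k (2 ^ m) u⌋₊ + ⌊osc k (2 ^ m) (u + (i + 1) + (i + 1))⌋₊ := by
      have : (2 : ℝ) * ⌊osc k (2 ^ m) (u + (i + 1))⌋₊ <
        ⌊osc k (2 ^ m) u⌋₊ + ⌊osc k (2 ^ m) (u + (i + 1) + (i + 1))⌋₊ := by linarith
      exact_mod_cast this
    omega

/-- At the scales `3 B ^ k` there are many midpoint-convex indices. -/
theorem many {k m : ℕ} (hk : 3 ≤ k) (hm : 5 ≤ m) : (2 ^ m) ^ k ≤ 8 ^ k *
    Set.ncard {n : ℕ | 2 ≤ n ∧ n ≤ 3 * (2 ^ m) ^ k ∧ ∀ i : ℕ, 1 ≤ i → i ≤ n - 1 →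
      2 * seq k n < seq k (n - i) + seq k (n + i)} := by
  obtain ⟨T, hc, hT⟩ := digits_set (2 ^ (m - 3)) (Nat.two_pow_pos _) k
  have e : 8 * 2 ^ (m - 3) = 2 ^ m := by
    rw [show 8 = 2 ^ 3 by norm_num, ← pow_add]
    congr 1
    omega
  rw [e] at hT
  have hB : 0 < (2 ^ m) ^ k := by positivity
  have h1 : T.card ≤ Set.ncard {n : ℕ | 2 ≤ n ∧ n ≤ 3 * (2 ^ m) ^ k ∧ ∀ i : ℕ, 1 ≤ i → i ≤ n - 1 →
      2 * seq k n < seq k (n - i) + seq k (n + i)} := by
    rw [← Set.ncard_coe_finset]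
    refine Set.ncard_le_ncard_of_injOn (fun r => r + 2 * (2 ^ m) ^ k) (fun r hr => ?_)
      (fun a _ b _ h => Nat.add_right_cancel h)
      ((Set.finite_le_nat (3 * (2 ^ m) ^ k)).subset fun _ h => h.2.1)
    obtain ⟨h1, h2⟩ := hT r hr
    refine ⟨by omega, by omega, fun i =>
      seq_conv (m := m) hk (by omega) (by omega) (by omega) fun t ht => ?_⟩
    rcases Nat.lt_or_ge k t with h3 | h3
    · obtain rfl : t = k + 1 := by omega
      have h4 : 32 * (2 ^ m) ^ k ≤ (2 ^ m) ^ (k + 1) := by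
        rw [pow_succ']
        exact Nat.mul_le_mul_right _ (Nat.pow_le_pow_right two_pos hm : 2 ^ 5 ≤ 2 ^ m)
      have := Nat.mod_le (r + 2 * (2 ^ m) ^ k) ((2 ^ m) ^ (k + 1))
      omega
    · obtain ⟨c, hc⟩ : (2 ^ m) ^ t ∣ (2 ^ m) ^ k := pow_dvd_pow _ h3
      rw [hc, show r + 2 * ((2 ^ m) ^ t * c) = r + (2 ^ m) ^ t * (2 * c) by ring,
        Nat.add_mul_mod_self_left]
      exact h2 t h3
  rw [hc] at h1
  calc (2 ^ m) ^ k = 8 ^ k * (2 ^ (m - 3)) ^ k := by rw [← mul_pow, e]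
    _ ≤ _ := Nat.mul_le_mul_left _ h1

end Pool.Agent.Lib.MP_43444d_nt.Thr
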