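import Pool.Agent.Lib.MP_43444d_nt.Final
import Pool.Agent.Lib.MP_43444d_nt.Thr

/-! The two halves of the growth threshold. -/

set_option autoImplicit false

namespace Pool.Agent.Lib.MP_43444d_nt.Thr

open Finset Filter

theorem scale {a : ℕ → ℕ} (h : ∀ ε : ℝ, 0 < ε → ∀ᶠ n : ℕ in atTop, (a n : ℝ) ≤ (n : ℝ) ^ (1 + ε))
    (C : ℕ) {ε : ℝ} (hε : 0 < ε) :
    ∀ᶠ N : ℕ in atTop, ∃ L : ℕ, 2 ≤ L ∧ L ^ C ≤ N ∧ (a (2 * N + 1) : ℝ) ≤ ε * L * N := by
  set b : ℝ := 1 / ((C : ℝ) + 1) with hb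
  have hb0 : 0 < b := by positivity
  have hb1 : b ≤ 1 := by
    rw [hb, div_le_one (by positivity)]
    linarith [Nat.cast_nonneg (α := ℝ) C]
  have t1 := (tendsto_rpow_atTop hb0).comp tendsto_natCast_atTop_atTop
  have t2 := (tendsto_rpow_atTop (half_pos hb0)).comp tendsto_natCast_atTop_atTop
  have t3 : Tendsto (fun N : ℕ => 2 * N + 1) atTop atTop :=
    tendsto_atTop_mono (fun N => by change N ≤ 2 * N + 1; omega) tendsto_id
  filter_upwards [t1.eventually_ge_atTop 2, t2.eventually_ge_atTop (18 / ε),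
    eventually_ge_atTop 1, t3.eventually (h (b / 2) (half_pos hb0))] with N h1 h2 h3 h4
  simp only [Function.comp] at h1 h2
  have hN : (1 : ℝ) ≤ N := by exact_mod_cast h3
  have hL1 : (⌊(N : ℝ) ^ b⌋₊ : ℝ) ≤ (N : ℝ) ^ b := Nat.floor_le (by positivity)
  have hL3 := Nat.lt_floor_add_one ((N : ℝ) ^ b)
  refine ⟨⌊(N : ℝ) ^ b⌋₊, Nat.le_floor (by exact_mod_cast h1), ?_, ?_⟩
  · have h5 : (⌊(N : ℝ) ^ b⌋₊ : ℝ) ^ C ≤ N := by
      calc _ ≤ ((N : ℝ) ^ b) ^ C := pow_le_pow_left₀ (Nat.cast_nonneg _) hL1 C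
        _ = (N : ℝ) ^ (b * C) := by rw [Real.rpow_mul (by linarith), Real.rpow_natCast]
        _ ≤ (N : ℝ) ^ (1 : ℝ) := by
            apply Real.rpow_le_rpow_of_exponent_le hN
            rw [hb, div_mul_eq_mul_div, div_le_one (by positivity)]
            linarith
        _ = N := Real.rpow_one _
    exact_mod_cast h5
  · have h5 : ((2 * N + 1 : ℕ) : ℝ) ^ (1 + b / 2) ≤ (3 * N : ℝ) ^ (1 + b / 2) :=
      Real.rpow_le_rpow (by positivity) (by push_cast; linarith) (by positivity)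
    have h6 : (3 : ℝ) ^ (1 + b / 2) ≤ 9 := by
      calc (3 : ℝ) ^ (1 + b / 2) ≤ 3 ^ (2 : ℝ) :=
            Real.rpow_le_rpow_of_exponent_le (by norm_num) (by linarith)
        _ = 9 := by norm_num
    rw [Real.mul_rpow (by norm_num) (by positivity), Real.rpow_add (x := N) (by linarith),
      Real.rpow_one] at h5
    have h7 : (N : ℝ) ^ b = (N : ℝ) ^ (b / 2) * (N : ℝ) ^ (b / 2) := by
      rw [← Real.rpow_add (by linarith), add_halves]
    have h8 : 0 < (N : ℝ) ^ (b / 2) := by positivity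
    rw [div_le_iff₀ hε] at h2
    have h9 : 9 * (N : ℝ) ^ (b / 2) ≤ ε * ⌊(N : ℝ) ^ b⌋₊ := by nlinarith
    have h10 := mul_le_mul_of_nonneg_right h6 (show 0 ≤ N * (N : ℝ) ^ (b / 2) by positivity)
    nlinarith

theorem slow {a : ℕ → ℕ} (ha : Monotone a)
    (h : ∀ ε : ℝ, 0 < ε → ∀ᶠ n : ℕ in atTop, (a n : ℝ) ≤ (n : ℝ) ^ (1 + ε)) :
    Tendsto (fun N : ℕ => (Set.ncard {n : ℕ | 2 ≤ n ∧ n ≤ N ∧ ∀ i : ℕ, 1 ≤ i → i ≤ n - 1 →
      2 * a n < a (n - i) + a (n + i)} : ℝ) / N) atTop (nhds 0) := by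
  classical
  rw [Metric.tendsto_atTop']
  intro ε hε
  obtain ⟨p, hp⟩ := exists_nat_gt (8 / ε)
  have hp0 : (0 : ℝ) < p := lt_trans (by positivity) hp
  have hp1 : 1 ≤ p := by exact_mod_cast hp0
  obtain ⟨C, hC⟩ := theoremB p hp1
  obtain ⟨N0, hN0⟩ := eventually_atTop.1 (scale h C (by positivity : 0 < ε / 4))
  refine ⟨N0, fun N hN => ?_⟩
  obtain ⟨L, hL2, hLC, hLP⟩ := hN0 N hN.le
  have hNr : (0 : ℝ) < N := by exact_mod_cast (by omega : 0 < N)
  have hLr : (0 : ℝ) < L := by exact_mod_cast (by omega : 0 < L)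
  let S : ℤ → Prop := fun x => 0 ≤ x ∧ ∀ i : ℕ, 1 ≤ i → i ≤ x.toNat →
    2 * a (x.toNat + 1) < a (x.toNat + 1 - i) + a (x.toNat + 1 + i)
  have hS : MidConv S fun x => (a (x.toNat + 1) : ℝ) := by
    intro n u v hn hu huv hsum
    have h1 := hn.2 (n - u).toNat (by omega) (by omega)
    have h0 := hn.1
    rw [show n.toNat + 1 - (n - u).toNat = u.toNat + 1 by omega,
      show n.toNat + 1 + (n - u).toNat = v.toNat + 1 by omega] at h1
    have h2 : 2 * a (n.toNat + 1) + 1 ≤ a (u.toNat + 1) + a (v.toNat + 1) := h1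
    beta_reduce
    exact_mod_cast h2
  have h1 := hC L hL2 N hLC S _ hS fun x y _ hxy => by exact_mod_cast ha (by omega)
  simp only [Int.toNat_natCast] at h1
  have h2 : (Set.ncard {n : ℕ | 2 ≤ n ∧ n ≤ N ∧ ∀ i : ℕ, 1 ≤ i → i ≤ n - 1 →
      2 * a n < a (n - i) + a (n + i)} : ℝ) ≤ apSum S 0 1 N := by
    rw [apSum_eq_card, Nat.cast_le, ← Set.ncard_coe_finset]
    refine Set.ncard_le_ncard_of_injOn (fun n : ℕ => (n : ℤ) - 1) ?_ ?_ (Finset.finite_toSet _)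
    · rintro n ⟨h1, h2, h3⟩
      simp only [coe_filter, mem_Ico, Set.mem_ofPred_eq, zero_add]
      refine ⟨⟨by omega, by omega⟩, by omega, ?_⟩
      rw [show ((n : ℤ) - 1).toNat = n - 1 by omega, show n - 1 + 1 = n by omega]
      exact h3
    · intro u _ v _ e
      simp only at e
      omega
  rw [Real.dist_eq, sub_zero, abs_of_nonneg (by positivity), div_lt_iff₀ hNr]
  have h3 : ((a (2 * N + 1) : ℝ) - a (Int.toNat 0 + 1)) / L ≤ ε / 4 * N := by
    rw [div_le_iff₀ hLr]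
    have : (0 : ℝ) ≤ a (Int.toNat 0 + 1) := Nat.cast_nonneg _
    linarith
  have h4 : 2 * (N : ℝ) / p ≤ ε / 4 * N := by
    rw [div_le_iff₀ hp0]
    rw [div_lt_iff₀ hε] at hp
    nlinarith
  have h5 : 0 < ε * N := by positivity
  linarith

theorem fast {γ : ℝ} (hγ : 1 < γ) : ∃ a : ℕ → ℕ, StrictMono a ∧
    (∀ ε : ℝ, 0 < ε → ∀ᶠ n : ℕ in atTop, (a n : ℝ) ≤ (n : ℝ) ^ (γ + ε)) ∧
    ¬Tendsto (fun N : ℕ => (Set.ncard {n : ℕ | 2 ≤ n ∧ n ≤ N ∧ ∀ i : ℕ, 1 ≤ i → i ≤ n - 1 →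
      2 * a n < a (n - i) + a (n + i)} : ℝ) / N) atTop (nhds 0) := by
  obtain ⟨k, hk⟩ := exists_nat_ge (max 3 (2 / (γ - 1)))
  have hk3 : 3 ≤ k := by exact_mod_cast (le_max_left _ _).trans hk
  have hk0 : (0 : ℝ) < k := by positivity
  have hk2 : 1 + 2 / (k : ℝ) ≤ γ := by
    have := (le_max_right _ _).trans hk
    rw [div_le_iff₀ (by linarith)] at this
    have h2 : 2 / (k : ℝ) ≤ γ - 1 := by rwa [div_le_iff₀' hk0]
    linarith
  refine ⟨seq k, seq_mono k, fun ε hε => ?_, fun H => ?_⟩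
  · filter_upwards [((tendsto_rpow_atTop hε).comp tendsto_natCast_atTop_atTop).eventually_ge_atTop
      (16 * (k + 1)), eventually_ge_atTop 1] with n h1 h2
    have hn : (1 : ℝ) ≤ n := by exact_mod_cast h2
    refine (seq_le (by omega) h2).trans ?_
    rw [add_comm γ, Real.rpow_add (x := n) (by linarith) ε]
    exact mul_le_mul h1 (Real.rpow_le_rpow_of_exponent_le hn hk2) (by positivity) (by positivity)
  · have t : Tendsto (fun m : ℕ => 3 * (2 ^ m) ^ k) atTop atTop :=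
      tendsto_atTop_mono (fun m => by
        have h1 : m < 2 ^ m := Nat.lt_two_pow_self
        have h2 := Nat.le_self_pow (show k ≠ 0 by omega) (2 ^ m)
        change m ≤ _
        omega) tendsto_id
    obtain ⟨m, h1, h2⟩ := (((H.comp t).eventually_lt_const
      (show (0 : ℝ) < 1 / (3 * 8 ^ k) by positivity)).and (eventually_ge_atTop 5)).exists
    have h3 := many hk3 h2
    simp only [Function.comp] at h1
    rw [div_lt_div_iff₀ (by positivity) (by positivity)] at h1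
    generalize Set.ncard _ = c at h1 h3
    have h4 : ((2 ^ m) ^ k : ℝ) ≤ 8 ^ k * c := by exact_mod_cast h3
    push_cast at h1
    linarith

end Pool.Agent.Lib.MP_43444d_nt.Thr
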